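import Pool.Agent.helper17.EXT.Spec

/-!
# Project EXT (MP_561ff4_al), BLOCK B: graph automorphisms of `F₄(2^f)`

RULES. Row `XXX`: file `Pool/Agent/<seat>/EXT/XXX.lean`, `import Pool.Agent.helper53.EXT.SpecB`, `set_option autoImplicit false`,
`open Finset`, `namespace Pool.Agent.EXT`, `open Pool.Agent.EXC`, theorem line exactly as in the lock note (other rows only as hypotheses),
auxiliary lemmas prefixed `XXX_`. No straight double quotes, no convert / congr!. Land, note DONE + path, one line to helper53.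

SETTING. `K` a field of characteristic 2 (given by a ring homomorphism `φ : ZMod 2 →+* K`), `τ = RingEquiv.refl K`, `GF τ = F₄(K)`. The simple roots of `F₄` are
`α₁ = sr 1`, `α₂ = sr 3` (long), `α₃ ~ {sr 2, sr 4}`, `α₄ ~ {sr 0, sr 5}` (short). `x` is an automorphism which maps `X_{±α₁}` to `X_{±α₄}` and `X_{±α₂}` to `X_{±α₃}`
(every involution in `Aut F₄(2^f)` which does not preserve the long root subgroups is conjugate to such an `x`). PLAN. `r = 3`: `g = x_{α₁}(1) x_{-α₁}(1)` acts on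
`⟨E θ, E (θ - α₁)⟩` with order 3, `x(g)` acts trivially there, `Z = x(g) g⁻¹`. `r = 5, 7`: `t = x_{α₂}(1)`, `Y = x(t) t⁻¹` is conjugate to `y₀ = X_{α₃}(1) x_{α₂}(1)`; on the natural module of `Sp₆`
(spanned by the `E η + E πη`, `η` short, `(η, θ) = 1`) everything has matrices over `ZMod 2`, and explicit products of two (three) conjugates of `y₀` have order 5 (7).
-/

set_option autoImplicit false

open Finset

namespace Pool.Agent.EXT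

open Pool.Agent.EXC

/-- the permutation `f` is in the short root subgroup `X_γ` -/
def InS {K : Type} [Field K] (τ : K ≃+* K) (γ : Fin 6 → ℤ) (f : Equiv.Perm (LT τ)) : Prop := ∃ t : K, ∀ v : LT τ,
  (f v : Lm C6 K) = xe C6 (E C6 γ) t (xe C6 (E C6 (pv γ)) ((sn γ : K) * τ t) v)

/-- the automorphism `x` maps `X_{±α₁}` to `X_{±α₄}` and `X_{±α₂}` to `X_{±α₃}` -/
structure Gr {K : Type} [Field K] (τ : K ≃+* K) (x : MulAut (GF τ)) : Prop where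
  a1 : ∀ f : GF τ, InX τ (E C6 (sr 1)) (f : Equiv.Perm (LT τ)) → InS τ (sr 0) ((x f : GF τ) : Equiv.Perm (LT τ))
  a2 : ∀ f : GF τ, InX τ (E C6 (-sr 1)) (f : Equiv.Perm (LT τ)) → InS τ (-sr 0) ((x f : GF τ) : Equiv.Perm (LT τ))
  b1 : ∀ f : GF τ, InX τ (E C6 (sr 3)) (f : Equiv.Perm (LT τ)) → InS τ (sr 2) ((x f : GF τ) : Equiv.Perm (LT τ))
  b2 : ∀ f : GF τ, InX τ (E C6 (-sr 3)) (f : Equiv.Perm (LT τ)) → InS τ (-sr 2) ((x f : GF τ) : Equiv.Perm (LT τ))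

/-- the short roots `η` with `(η, θ) = 1` up to the symmetry -/
def et6 : Fin 6 → Fin 6 → ℤ := ![![1, 1, 2, 2, 1, 1], ![1, 1, 2, 2, 1, 0], ![1, 1, 1, 2, 1, 0], ![1, 1, 1, 1, 1, 0], ![1, 1, 1, 1, 0, 0], ![0, 1, 1, 1, 0, 0]]

/-- the vector with the coordinates `c` -/
noncomputable def io6 {K : Type} [Field K] (c : Fin 6 → K) : Lm C6 K := ∑ i, c i • (E C6 (et6 i) + E C6 (pv (et6 i)))

/-- `g` acts on the span of the `E η + E πη` as the matrix `P` -/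
def Mq {K : Type} [Field K] (φ : ZMod 2 →+* K) (g : Lm C6 K ≃ₗ[K] Lm C6 K) (P : Matrix (Fin 6) (Fin 6) (ZMod 2)) : Prop :=
  ∀ c, g (io6 c) = io6 ((P.map φ).mulVec c)

/-- the matrices of the letters: `0, 1, 2`: `x_{α₂}(1)`, `X_{α₃}(1)`, `X_{α₄}(1)` -/
def LP : Fin 3 → Matrix (Fin 6) (Fin 6) (ZMod 2) := ![1 + Matrix.single 2 3 1, 1 + Matrix.single 1 2 1 + Matrix.single 3 4 1,
  1 + Matrix.single 0 1 1 + Matrix.single 4 5 1]

/-- the matrices of the letters: `0, 1, 2`: `x_{-α₂}(1)`, `X_{-α₃}(1)`, `X_{-α₄}(1)` -/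
def LN : Fin 3 → Matrix (Fin 6) (Fin 6) (ZMod 2) := ![1 + Matrix.single 3 2 1, 1 + Matrix.single 2 1 1 + Matrix.single 4 3 1,
  1 + Matrix.single 1 0 1 + Matrix.single 5 4 1]

/-- the matrix of `y₀ = X_{α₃}(1) x_{α₂}(1)` -/
def P0 : Matrix (Fin 6) (Fin 6) (ZMod 2) := LP 1 * LP 0

/-- the inverse matrix of `P0` -/
def P0i : Matrix (Fin 6) (Fin 6) (ZMod 2) := LP 0 * LP 1

/-- **B0R** (short). Finite facts: `decide` / `decide +kernel` / `fin_cases` and `simp [ip, ...]`. -/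
def B0R_stmt : Prop := (∀ i, SR (et6 i) ∧ SR (pv (et6 i)) ∧ ip C6 (et6 i) th = 1 ∧ ip C6 (pv (et6 i)) th = 1) ∧ (∀ i j, et6 i = et6 j → i = j) ∧
  (∀ i j, pv (et6 i) ≠ et6 j) ∧ LR (sr 1) ∧ LR (sr 3) ∧ LR (-sr 1) ∧ LR (-sr 3) ∧ SR (sr 0) ∧ SR (sr 2) ∧ SR (-sr 0) ∧ SR (-sr 2) ∧ LR (th - sr 1) ∧ LR ![0, 0, 1, 1, 1, 0] ∧
  ip C6 (sr 3) ![0, 0, 1, 1, 1, 0] = 0 ∧ ip C6 (sr 2) ![0, 0, 1, 1, 1, 0] = 1 ∧ ip C6 (sr 4) ![0, 0, 1, 1, 1, 0] = 1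

/-- **B0A** (medium). uses: B0R. The letters on the span (characteristic 2, `1 + 1 = 0` in `K` from `φ`; all signs are `1`, `f_ACT`). For the root `α = ± sr j` and `v = E η + E πη`: `x_α(1)` adds `E (η + α)` if `(α, η) = -1` (18 + 18 products of `± sr 3`, `± sr 2, ± sr 4`, `± sr 0, ± sr 5` with the twelve roots `et6 i`, `pv (et6 i)`: finite table),
e.g. `X_{sr 2}(1) = x_{sr 2}(1) x_{sr 4}(1)` maps `E (et6 2) + E (pv (et6 2))` to itself plus `E (et6 1) + E (pv (et6 1))`. If `η + α` and `πη + α'` are the same long root the two terms cancel. The rest: `Mq` is multiplicative, inverses. -/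
def B0A_stmt : Prop := ∀ (K : Type) [Field K] (φ : ZMod 2 →+* K) (g : Lm C6 K ≃ₗ[K] Lm C6 K),
  (IsX C6 (E C6 (sr 3)) 1 g → Mq φ g (LP 0)) ∧ (IsX C6 (E C6 (-sr 3)) 1 g → Mq φ g (LN 0)) ∧
  (IsS (RingEquiv.refl K) (sr 2) 1 g → Mq φ g (LP 1)) ∧ (IsS (RingEquiv.refl K) (-sr 2) 1 g → Mq φ g (LN 1)) ∧
  (IsS (RingEquiv.refl K) (sr 0) 1 g → Mq φ g (LP 2)) ∧ (IsS (RingEquiv.refl K) (-sr 0) 1 g → Mq φ g (LN 2)) ∧
  (∀ (g' : Lm C6 K ≃ₗ[K] Lm C6 K) (P P' : Matrix (Fin 6) (Fin 6) (ZMod 2)), Mq φ g P → Mq φ g' P' → Mq φ (g * g') (P * P')) ∧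
  (∀ P P' : Matrix (Fin 6) (Fin 6) (ZMod 2), P * P' = 1 → Mq φ g P → Mq φ g⁻¹ P') ∧ Mq φ (1 : Lm C6 K ≃ₗ[K] Lm C6 K) 1

/-- **B0N** (short-medium). uses: B0R, SIG. `io6 c ∈ LT` for `c = Pi.single j 1`: `σ (E η) = ± E πη = E πη` (characteristic 2). So `io6 ((P.map φ).mulVec c) = io6 c`; compare the coordinates at `et6 i` (the `et6 i`, `pv (et6 i)` are different roots), `φ` is injective. -/
def B0N_stmt : Prop := ∀ (K : Type) [Field K] (φ : ZMod 2 →+* K) (g : Lm C6 K ≃ₗ[K] Lm C6 K) (P : Matrix (Fin 6) (Fin 6) (ZMod 2)), Mq φ g P →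
  (∀ v ∈ LT (RingEquiv.refl K), g v = v) → P = 1

/-- **B0Y** (medium). uses: B0R, B0A, SGR, GFX, TOR, ESF. The conjugate of `Y`. GFX: `t ∈ GF` with `IsF τ (E (sr 3)) 1 t`; `x t ∈ X_{α₃}` (`b1`), parameter `b`; `b ≠ 0` (`x t ≠ 1` as `t ≠ 1`: GFX, `IsF τ a 0 1`). `t⁻¹ = t` (characteristic 2). TOR with `α = ![0,0,1,1,1,0]`, `t = 1/b`: `h ∈ GS`, `h E_{sr 3} = E_{sr 3}`, `h E_{sr 2} = (1/b) E_{sr 2}`, `h E_{sr 4} = (1/b) E_{sr 4}`; `f₀ ∈ GF`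
induced by `h` (GFX). `f₀ (x t t⁻¹) f₀⁻¹` is induced by `y = X_{sr 2}(1) x_{sr 3}(1) ∈ GS` (conjugation of `xe`: `f_XAU`, `f_EXF`: `h (xe a t v) = xe (h a) t (h v)`, `xe (c • a) t = xe a (c * t)`); `Mq φ y P0` (B0A). -/
def B0Y_stmt : Prop := ∀ (K : Type) [Field K] (φ : ZMod 2 →+* K) (x : MulAut (GF (RingEquiv.refl K))), Gr (RingEquiv.refl K) x →
  ∃ (t f₀ : GF (RingEquiv.refl K)), ∃ y ∈ GS (RingEquiv.refl K), Mq φ y P0 ∧
    ∀ v : LT (RingEquiv.refl K), (((f₀ * (x t * t⁻¹) * f₀⁻¹ : GF (RingEquiv.refl K)) : Equiv.Perm (LT (RingEquiv.refl K))) v : Lm C6 K) = y v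

/-- **B0P** (short). The matrices over `ZMod 2` (`decide` or `decide +kernel`). -/
def B0P_stmt : Prop := P0 * P0i = 1 ∧ (∀ i, LP i * LP i = 1) ∧ (∀ i, LN i * LN i = 1) ∧
  (P0 * (LN 0 * LN 1 * P0 * (LN 1 * LN 0))) ^ 5 = 1 ∧ P0 * (LN 0 * LN 1 * P0 * (LN 1 * LN 0)) ≠ 1 ∧
  (P0 * (LN 1 * P0 * LN 1) * (LP 2 * LN 2 * LN 1 * P0 * (LN 1 * LN 2 * LP 2))) ^ 7 = 1 ∧
  P0 * (LN 1 * P0 * LN 1) * (LP 2 * LN 2 * LN 1 * P0 * (LN 1 * LN 2 * LP 2)) ≠ 1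

/-- **B57** (medium). uses: B0A, B0N, B0Y, B0P, SGR, GFX, GRQ, FXF. `r = 5`, `k = 2` and `r = 7`, `k = 3`. B0Y gives `t, f₀, y`. Letters in `GS` (SGR): `n₀ = x_{-sr 3}(1)`, `n₁ = X_{-sr 2}(1)`, `n₂ = X_{-sr 0}(1)`, `p₂ = X_{sr 0}(1)`. `z = y (n₀ n₁) y (n₀ n₁)⁻¹` (`r = 5`), `z = y (n₁ y n₁⁻¹) (h y h⁻¹)`, `h = p₂ n₂ n₁` (`r = 7`): `Mq φ z Q` with the
matrix `Q` of B0P (inverses of the letters: B0A with B0P). The product `Z` of the `(fᵢ f₀) (x t t⁻¹) (fᵢ f₀)⁻¹` is induced by `z`; `(conj Z)^m = 1`: `Z^m = 1` (FXF, centre trivial), `z^m` is the identity on `LT`, `Q^m = 1` (B0N), so `r ∣ m` (`Q^r = 1`, `Q ≠ 1`, `r` prime). GRQ. -/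
def B57_stmt : Prop := ∀ (K : Type) [Field K] [Finite K] (_ : ZMod 2 →+* K) (x : MulAut (GF (RingEquiv.refl K))), Gr (RingEquiv.refl K) x →
  4 ∈ Pool.Agent.GS.CSet 5 x ∧ 6 ∈ Pool.Agent.GS.CSet 7 x

/-- **B03** (medium). uses: B0R, SGR, GFX, GRQ, FXF, ESF. `r = 3`, `k = 1`: `g = f f'` with `IsF τ (E (sr 1)) 1 f`, `IsF τ (E (-sr 1)) 1 f'` (GFX), `Z = x g * g⁻¹`. `x g = x f * x f'`, `x f ∈ X_{sr 0}`, `x f' ∈ X_{-sr 0}` (`a1`, `a2`), so `x g` fixes `E th` and `E (th - sr 1)` (`f_ACT`: `(± sr 0, th) = (± sr 0, th - sr 1) = 0`, the same with `sr 5`). `f`: `E (th - sr 1) ↦ E (th - sr 1) + E th`, `E th ↦ E th`;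
`f'`: `E th ↦ E th + E (th - sr 1)`, `E (th - sr 1)` fixed (`f_ACT`, signs are `1` in characteristic 2). So `g⁻¹`, and `Z`, act on the span with order 3: `u = E th`, `w = E (th - sr 1)`: `g u = w`... (compute: `g u = f (u + w) = w`, `g w = f w = w + u`). `Z^m = 1` implies `g^m u = u`, so `3 ∣ m` (the orbit of `u` is `u, w, u + w`). GRQ with `k = 1`, `t = g`. -/
def B03_stmt : Prop := ∀ (K : Type) [Field K] [Finite K] (_ : ZMod 2 →+* K) (x : MulAut (GF (RingEquiv.refl K))), Gr (RingEquiv.refl K) x →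
  2 ∈ Pool.Agent.GS.CSet 3 x

end Pool.Agent.EXT
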