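import Pool.Agent.helper17.EXT.Spec

/-!
# Project EXT (MP_561ff4_al), BLOCK G: `r = 5` for `F₄(q)` and `²E₆(q)`: four conjugates of `x` generate a group of order divisible by 5

RULES. Row `XXX`: file `Pool/Agent/<seat>/EXT/XXX.lean`, `import Pool.Agent.helper53.EXT.SpecG`, `set_option autoImplicit false`,
`open Finset`, `namespace Pool.Agent.EXT`, `open Pool.Agent.EXC`, theorem line exactly as in the lock note (other rows only as hypotheses),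
auxiliary lemmas prefixed `XXX_`. No straight double quotes, no convert / congr!. Land, note DONE + path, one line to helper53.

PLAN. `gm 0, .., gm 3` are four short roots with mutual products 1; the differences `gm i - gm j` are long roots (type `A₃`), and
`x_{gm i - gm j}(t)` acts on the span of the `E (gm i)` as `1 ± t E_ij`: the natural module of `SL₄`. By PAR every pair `(a, x a)` of type
`-2, -1, 0` is conjugate to `(E ρ_01, κ E ρ_cd)` with `(c,d) = (1,0), (1,2), (2,3)`. So `Y = x(t) t⁻¹` acts as `(1 + s₁ E_cd)(1 + s₂ E_01)`, and the rows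
G5X, G5Y, G5Z give two conjugates of it in `SL₄(F₀)` (`F₀` = fixed elements of `K`) whose product satisfies `Z⁴ + eZ³ + Z² + eZ + 1 = 0`, `e = ±1`.
-/

set_option autoImplicit false

open Finset

namespace Pool.Agent.EXT

open Pool.Agent.EXC

/-- four short roots with mutual products `1` -/
def gm : Fin 4 → Fin 6 → ℤ := ![![1, 1, 1, 2, 1, 0], ![1, 1, 1, 1, 1, 0], ![1, 0, 1, 1, 1, 0], ![1, 0, 0, 0, 0, 0]]

/-- the vector with the coordinates `c` -/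
noncomputable def io4 {K : Type} [Field K] (c : Fin 4 → K) : Lm C6 K := ∑ i, c i • E C6 (gm i)

/-- `g` acts on the span of the `E (gm i)` as the matrix `P` -/
def Mo {K : Type} [Field K] (g : Lm C6 K ≃ₗ[K] Lm C6 K) (P : Matrix (Fin 4) (Fin 4) K) : Prop := ∀ c, g (io4 c) = io4 (P.mulVec c)

/-- the element `(1 + s₁ E_cd)(1 + s₂ E_01)` -/
def Y4 {F : Type} [Field F] (c d : Fin 4) (s1 s2 : F) : Matrix (Fin 4) (Fin 4) F := (1 + Matrix.single c d s1) * (1 + Matrix.single 0 1 s2)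

/-- **G5R** (short). Finite facts on the four roots: `decide` / `fin_cases` and `simp [ip, ...]`, `decide +kernel`. -/
def G5R_stmt : Prop := (∀ i j : Fin 4, i ≠ j → LR (gm i - gm j)) ∧ (∀ i, SR (gm i)) ∧
  (∀ i j k : Fin 4, i ≠ j → ip C6 (gm i - gm j) (gm k) = (if i = k then 1 else 0) - (if j = k then 1 else 0)) ∧
  (∀ i j : Fin 4, gm i = gm j → i = j) ∧ (∀ i j : Fin 4, pv (gm i) ≠ gm j) ∧
  ip C6 (gm 0 - gm 1) (gm 1 - gm 0) = -2 ∧ ip C6 (gm 0 - gm 1) (gm 1 - gm 2) = -1 ∧ ip C6 (gm 0 - gm 1) (gm 2 - gm 3) = 0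

/-- **G5A** (short-medium). uses: G5R. The letters. `f_ACT` (`xe` is linear in `v`): `x_{gm i - gm j}(t) E (gm k) = E (gm k)` for `k ≠ j` and `E (gm j) + t sg(gm i - gm j, gm j) E (gm i)` for `k = j`. Take `s = sg C6 (gm i - gm j) (gm j)` (`s² = 1`).
The rest: `Mo` is multiplicative, inverses (`g⁻¹` of the equation with `P'` the inverse matrix), identity. -/
def G5A_stmt : Prop := ∀ (K : Type) [Field K],
  (∀ i j : Fin 4, i ≠ j → ∃ s : ℤ, (s = 1 ∨ s = -1) ∧ ∀ (t : K) (g : Lm C6 K ≃ₗ[K] Lm C6 K), IsX C6 (E C6 (gm i - gm j)) t g →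
    Mo g (1 + Matrix.single i j ((s : K) * t))) ∧
  (∀ (g g' : Lm C6 K ≃ₗ[K] Lm C6 K) (P P' : Matrix (Fin 4) (Fin 4) K), Mo g P → Mo g' P' → Mo (g * g') (P * P')) ∧
  (∀ (g : Lm C6 K ≃ₗ[K] Lm C6 K) (P P' : Matrix (Fin 4) (Fin 4) K), P * P' = 1 → Mo g P → Mo g⁻¹ P') ∧
  Mo (1 : Lm C6 K ≃ₗ[K] Lm C6 K) 1

/-- **G5S** (short; Mathlib only). `SL_4(F)` is generated by transvections: copy `Pool/Agent/helper27/EXC/SLT.lean` (the same for `Fin 6`) and replace `Fin 6` by `Fin 4`. -/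
def G5S_stmt : Prop := ∀ (F : Type) [Field F], Subgroup.closure {m : Matrix.SpecialLinearGroup (Fin 4) F | ∃ (a b : Fin 4) (t : F), a ≠ b ∧
  (m : Matrix (Fin 4) (Fin 4) F) = 1 + Matrix.single a b t} = ⊤

/-- **G5L** (short-medium). uses: G5R, G5A, G5S, SGR. Lifts. Closure induction on `SL₄(F₀)` (G5S): the transvection `1 + t E_ij`, `t ∈ F₀`, is the action of `x_{gm i - gm j}(s t) ∈ GS τ` (`s² = 1`; `LR`, G5R; SGR); products and inverses by G5A. -/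
def G5L_stmt : Prop := ∀ (K : Type) [Field K] (τ : K ≃+* K), (∀ x, τ (τ x) = x) → ∀ F₀ : Subfield K, (∀ c ∈ F₀, τ c = c) →
  ∀ G : Matrix.SpecialLinearGroup (Fin 4) F₀, ∃ g ∈ GS τ, Mo g ((G : Matrix (Fin 4) (Fin 4) F₀).map F₀.subtype) ∧
    Mo g⁻¹ (((G⁻¹ : Matrix.SpecialLinearGroup (Fin 4) F₀) : Matrix (Fin 4) (Fin 4) F₀).map F₀.subtype)

/-- **G5N** (short-medium). uses: G5R, SGR, SIG. `g ∈ GS τ` is the identity on `LT τ` and acts on the span as `P`: then `P = 1`. The vector `v = E (gm j) + si τ (E (gm j))` is in `LT τ` (SIG: `σ` is an additive involution). `g` commutes with `σ` (SGR), so `g v = w + si τ w` with `w = g (E (gm j)) = ∑ P i j E (gm i)`, and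
`si τ w = ∑ ± τ(P i j) E (pv (gm i))`. Compare the coordinates at `gm i` of `g v = v` (`pv (gm k) ≠ gm i`). -/
def G5N_stmt : Prop := ∀ (K : Type) [Field K] (τ : K ≃+* K), (∀ x, τ (τ x) = x) → ∀ g ∈ GS τ, ∀ P : Matrix (Fin 4) (Fin 4) K, Mo g P →
  (∀ v ∈ LT τ, g v = v) → P = 1

/-- **G5P** (short-medium; Mathlib only). `Z⁵ = 1` (`e = 1`) or `Z⁵ = -1` (`e = -1`). If `5 ∤ m`: `e = 1`: `Z = 1`, so `5 = 0`. `e = -1`: `Z¹⁰ = 1`, so `Z² = 1` (`gcd (10, m) ∣ 2`), and `Z⁴ - Z³ + Z² - Z + 1 = 3 - 2Z = 0`, `4 = 4 Z² = 9`, `5 = 0` in `K` (compare the entry `(0,0)`). -/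
def G5P_stmt : Prop := ∀ (K : Type) [Field K], (5 : K) ≠ 0 → ∀ (Z : Matrix (Fin 4) (Fin 4) K) (e : K), (e = 1 ∨ e = -1) →
  Z ^ 4 + e • Z ^ 3 + Z ^ 2 + e • Z + 1 = 0 → ∀ m : ℕ, Z ^ m = 1 → 5 ∣ m

/-- **G5X** (medium; Mathlib only; explicit matrices, checked by computer). Type `-2`. `κ = s₁ s₂`, `D = diag(s₂, 1, 1, 1/s₂)`, `H₁ = [[1,0,-κ-5/κ,1],[0,1,5,1],[0,0,1,0],[0,0,0,1]]`, `H₂ = [[0,0,0,1/κ],[0,0,-1,0],[0,1,-1/κ,0],[-κ,0,-1,1/κ]]`, `G₁ = H₁ D⁻¹`, `G₂ = H₂ D⁻¹`, `e = 1`.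
`D⁻¹ Y4 D = E ⊕ 1` with `E = [[1,1],[κ,1+κ]]`; `H₁ (E ⊕ 1) H₁⁻¹ = [[E, R - τ],[0, 1]]`, `H₂ (E ⊕ 1) H₂⁻¹ = [[1, 0],[1, E⁻¹]]` (blocks of size 2), `τ = 2 + κ`, `E⁻¹ = [[1+κ,-1],[-κ,1]]`, `R - τ = (1 - E) X`, `X = [[-κ-5/κ,1],[5,1]]`, `tr R = det R = -1`; the product
`Z` has the characteristic polynomial `T⁴ - tr R T³ + (2 + det R) T² - tr R T + 1`. In Lean: give `G₁, G₂` and their inverses as explicit matrices, compute `Z` (an explicit matrix with entries in `ℤ[κ, 1/κ]`), then `Z⁴ + Z³ + Z² + Z + 1 = 0` entry by entry. -/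
def G5X_stmt : Prop := ∀ (F : Type) [Field F] (s1 s2 : F), s1 ≠ 0 → s2 ≠ 0 → ∃ (G1 G2 : Matrix.SpecialLinearGroup (Fin 4) F) (e : F), (e = 1 ∨ e = -1) ∧
  ∀ Z : Matrix (Fin 4) (Fin 4) F, Z = (G1 : Matrix (Fin 4) (Fin 4) F) * Y4 1 0 s1 s2 * ((G1⁻¹ : Matrix.SpecialLinearGroup (Fin 4) F) : Matrix (Fin 4) (Fin 4) F) *
    ((G2 : Matrix (Fin 4) (Fin 4) F) * Y4 1 0 s1 s2 * ((G2⁻¹ : Matrix.SpecialLinearGroup (Fin 4) F) : Matrix (Fin 4) (Fin 4) F)) →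
    Z ^ 4 + e • Z ^ 3 + Z ^ 2 + e • Z + 1 = 0

/-- **G5Y** (medium; Mathlib only; explicit matrices, checked by computer). Type `-1`. `G₂ = diag(-1/s₂, 1, -s₁, s₂/s₁)`, `G₁ = h w (1 + s₂ E_01)` with `h = (1 + E_31)(1 + E_13)`, `w = [[0,0,s₁,0],[0,1,0,0],[1/s₂,0,0,0],[0,0,0,-s₂/s₁]]`, `e = -1`. `G₂ Y G₂⁻¹ = (1 - E_12)(1 - E_01)`, `G₁ Y G₁⁻¹ = h (1 + E_21)(1 + E_10) h⁻¹`: all constant. -/
def G5Y_stmt : Prop := ∀ (F : Type) [Field F] (s1 s2 : F), s1 ≠ 0 → s2 ≠ 0 → ∃ (G1 G2 : Matrix.SpecialLinearGroup (Fin 4) F) (e : F), (e = 1 ∨ e = -1) ∧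
  ∀ Z : Matrix (Fin 4) (Fin 4) F, Z = (G1 : Matrix (Fin 4) (Fin 4) F) * Y4 1 2 s1 s2 * ((G1⁻¹ : Matrix.SpecialLinearGroup (Fin 4) F) : Matrix (Fin 4) (Fin 4) F) *
    ((G2 : Matrix (Fin 4) (Fin 4) F) * Y4 1 2 s1 s2 * ((G2⁻¹ : Matrix.SpecialLinearGroup (Fin 4) F) : Matrix (Fin 4) (Fin 4) F)) →
    Z ^ 4 + e • Z ^ 3 + Z ^ 2 + e • Z + 1 = 0

/-- **G5Z** (medium; Mathlib only; explicit matrices, checked by computer). Type `0`. `G₁ = 1`, `e = -1`; `G₂ Y G₂⁻¹ = 1 - (1/s₂) E_10 + (1/s₂) E_12 + (1/s₁) E_30 - (2/s₁) E_32`, `G₂ = h J⁻¹ T`, `h = (1 + E_02)(1 - (s₂/s₁) E_31)`, `J⁻¹ = [[0,-1,0,0],[1,0,0,0],[0,0,0,-1],[0,0,1,0]]`, `T = diag(1/s₂, s₂, 1/s₁, s₁)`.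
(In the order `0, 2 | 1, 3`: `Y = [[1, A],[0, 1]]`, `G₂ Y G₂⁻¹ = [[1, 0],[B, 1]]`, `A = diag(s₂, s₁)`, `A B = R - 2`, `R = [[1,1],[1,0]]`, `R² = R + 1`.) -/
def G5Z_stmt : Prop := ∀ (F : Type) [Field F] (s1 s2 : F), s1 ≠ 0 → s2 ≠ 0 → ∃ (G1 G2 : Matrix.SpecialLinearGroup (Fin 4) F) (e : F), (e = 1 ∨ e = -1) ∧
  ∀ Z : Matrix (Fin 4) (Fin 4) F, Z = (G1 : Matrix (Fin 4) (Fin 4) F) * Y4 2 3 s1 s2 * ((G1⁻¹ : Matrix.SpecialLinearGroup (Fin 4) F) : Matrix (Fin 4) (Fin 4) F) *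
    ((G2 : Matrix (Fin 4) (Fin 4) F) * Y4 2 3 s1 s2 * ((G2⁻¹ : Matrix.SpecialLinearGroup (Fin 4) F) : Matrix (Fin 4) (Fin 4) F)) →
    Z ^ 4 + e • Z ^ 3 + Z ^ 2 + e • Z + 1 = 0

/-- **G5C** (medium). uses: GEF, PAR, GFX, SGR, G5R, G5A. The conjugate of `Y`. GEF: `a, a', m`; PAR with `β = gm 0 - gm 1`, `δ = gm c - gm d` (`(c,d) = (1,0), (1,2), (2,3)` for `m = -2, -1, 0`): `g a = E β`, `g a' = κ E δ`. GFX: `f ∈ GF` with `IsF τ a 1 f`; `x f ∈ X_{a'}` (`ImF`): `IsF τ a' s (x f)`, `τ s = s`, `s ≠ 0` (otherwise `x f = 1`, `f = 1`,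
`IsF τ a 0 f`, `1 = 0` by GFX). `t = f⁻¹`: `x t * t⁻¹ = (x f)⁻¹ * f`. `f₀ ∈ GF` induced by `g`: `f₀ (x t t⁻¹) f₀⁻¹` is induced by `y = x_δ(-s κ) x_β(1) ∈ GS τ` (conjugation: GFX; scalars: `xe (κ • E) t = xe E (κ t)`, `f_XAU`/`f_EXF`), and `Mo y (Y4 c d s₁ s₂)` (G5A). -/
def G5C_stmt : Prop := ∀ (K : Type) [Field K] (τ : K ≃+* K), (∀ x, τ (τ x) = x) → ∀ x : MulAut (GF τ), RAF τ x → x ≠ 1 →
  ∃ (c d : Fin 4) (s1 s2 : K) (t f₀ : GF τ), ((c = 1 ∧ d = 0) ∨ (c = 1 ∧ d = 2) ∨ (c = 2 ∧ d = 3)) ∧ τ s1 = s1 ∧ τ s2 = s2 ∧ s1 ≠ 0 ∧ s2 ≠ 0 ∧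
    ∃ y ∈ GS τ, Mo y (Y4 c d s1 s2) ∧ ∀ v : LT τ, (((f₀ * (x t * t⁻¹) * f₀⁻¹ : GF τ) : Equiv.Perm (LT τ)) v : Lm C6 K) = y v

/-- **G5F** (medium). uses: G5C, G5A, G5L, G5N, G5P, G5X, G5Y, G5Z, GFX, GRQ, FXF. Assembly. `F₀` = the subfield of the fixed elements (`(τ : K →+* K).eqLocusField (RingHom.id K)` or a `Subfield` by hand). G5C; G5X / G5Y / G5Z over `F₀` give `G₁, G₂`; lifts `h₁, h₂ ∈ GS τ` (G5L), inducing `f₁, f₂ ∈ GF`. `z = h₁ y h₁⁻¹ h₂ y h₂⁻¹` acts as the matrix `Z`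
(`Mo`, map of the identity from `F₀` to `K`), and `Z' = ∏ (fᵢ f₀) (x t t⁻¹) (fᵢ f₀)⁻¹ ∈ GF` is induced by `z`. `(conj Z')^m = 1`: `Z'^m` is central, so `1` (FXF), so `z^m` is the identity on `LT τ`, `Mo (z^m) (Z^m)`, so `Z^m = 1` (G5N), `5 ∣ m` (G5P). GRQ with `k = 2`, `r = 5`. -/
def G5F_stmt : Prop := ∀ (K : Type) [Field K] [Finite K] (τ : K ≃+* K), (∀ x, τ (τ x) = x) → (5 : K) ≠ 0 → ∀ x : MulAut (GF τ), RAF τ x → x ≠ 1 →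
  4 ∈ Pool.Agent.GS.CSet 5 x

end Pool.Agent.EXT
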