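import Pool.Agent.helper53.EXT.SpecM
import Pool.Agent.helper43.EXT.LST

/-! # Row ftm:NMC (MP_561ff4_al): the certificate (computer generated) -/

set_option autoImplicit false
set_option linter.style.longLine false

open Finset

namespace Pool.Agent.EXT

open Pool.Agent.EXC

theorem NMC_h1 : Dm PLm [(![1, 2, 2, 3, 2, 1], true), (![0, 1, 1, 2, 2, 1], true)] := Dm.ax _ (by unfold PLm; simp)
theorem NMC_h2 : Dm PLm [(![0, 1, 1, 2, 2, 1], true), (![1, 2, 2, 3, 2, 1], true)] := Dm.swp _ _ NMC_h1 (by decide +kernel)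
theorem NMC_h3 : Dm PLm [(![-1, -1, -1, -1, -1, -1], true), (![0, 0, 0, 1, 1, 0], true)] := Dm.ax _ (by unfold PLm; simp)
theorem NMC_h4 : Dm PLm [(![-1, -1, -1, -2, -1, -1], true), (![-1, 0, 0, 0, 0, 0], true)] := Dm.ax _ (by unfold PLm; simp)
theorem NMC_h5 : Dm PLm [(![0, 0, -1, -1, -1, 0], true), (![0, 1, 0, 1, 1, 1], true)] := Dm.ax _ (by unfold PLm; simp)
theorem NMC_h6 : Dm PLm [(![0, -1, 0, 0, 0, 0], false), (![0, -1, -1, -1, 0, 0], true)] := Dm.ax _ (by unfold PLm; simp)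
theorem NMC_h7 : Dm PLm [(![0, -1, -1, -1, 0, 0], true), (![0, -1, 0, 0, 0, 0], false)] := Dm.swp _ _ NMC_h6 (by decide +kernel)
theorem NMC_h8 : Dm PLm [(![1, 2, 2, 3, 2, 1], true), (![0, 1, 1, 2, 2, 1], true)] := Dm.swp _ _ NMC_h2 (by decide +kernel)
theorem NMC_h9 : Dm PLm [(![0, 1, 1, 2, 1, 0], true)] := Dm.co1 ![-1, -1, -1, -1, -1, -1] ![1, 2, 2, 3, 2, 1] ![0, 1, 1, 2, 1, 0] [(![0, 0, 0, 1, 1, 0], true)] [(![0, 1, 1, 2, 2, 1], true)] NMC_h3 NMC_h8 (by decide +kernel)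
theorem NMC_h10 : Dm PLm [(![1, 2, 2, 3, 2, 1], true), (![0, 1, 1, 2, 2, 1], true)] := Dm.swp _ _ NMC_h2 (by decide +kernel)
theorem NMC_h11 : Dm PLm [(![0, 1, 1, 1, 1, 0], true)] := Dm.co1 ![-1, -1, -1, -2, -1, -1] ![1, 2, 2, 3, 2, 1] ![0, 1, 1, 1, 1, 0] [(![-1, 0, 0, 0, 0, 0], true)] [(![0, 1, 1, 2, 2, 1], true)] NMC_h4 NMC_h10 (by decide +kernel)
theorem NMC_h12 : Dm PLm [(![0, 1, 0, 1, 1, 1], true), (![1, 2, 2, 3, 2, 1], true)] := Dm.co2 ![0, 0, -1, -1, -1, 0] ![0, 1, 1, 2, 2, 1] ![0, 1, 0, 1, 1, 1] ![1, 2, 2, 3, 2, 1] [(![0, 1, 0, 1, 1, 1], true)] [(![1, 2, 2, 3, 2, 1], true)] NMC_h5 NMC_h2 (by decide +kernel)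
theorem NMC_h13 : Dm PLm [(![-1, 0, 0, 0, 0, 0], true), (![-1, -1, -1, -2, -1, -1], true)] := Dm.swp _ _ NMC_h4 (by decide +kernel)
theorem NMC_h14 : Dm PLm [(![-1, -1, -1, -1, 0, 0], true)] := Dm.co1 ![0, -1, -1, -1, 0, 0] ![-1, 0, 0, 0, 0, 0] ![-1, -1, -1, -1, 0, 0] [(![0, -1, 0, 0, 0, 0], false)] [(![-1, -1, -1, -2, -1, -1], true)] NMC_h7 NMC_h13 (by decide +kernel)
theorem NMC_h15 : Dm PLm [(![0, 1, 0, 1, 0, 0], true)] := Dm.co1 ![0, 1, 1, 2, 1, 0] ![0, 0, -1, -1, -1, 0] ![0, 1, 0, 1, 0, 0] [] [(![0, 1, 0, 1, 1, 1], true)] NMC_h9 NMC_h5 (by decide +kernel)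
theorem NMC_h16 : Dm PLm [(![0, 0, 0, 1, 1, 0], true), (![0, -1, 0, 0, 0, 0], true)] := Dm.co2 ![0, 1, 1, 2, 1, 0] ![0, -1, -1, -1, 0, 0] ![0, 0, 0, 1, 1, 0] ![0, -1, 0, 0, 0, 0] [] [(![0, -1, 0, 0, 0, 0], false)] NMC_h9 NMC_h7 (by decide +kernel)
theorem NMC_h17 : Dm PLm [(![0, -1, 0, 0, 0, 0], true), (![0, 0, 0, 1, 1, 0], true)] := Dm.swp _ _ NMC_h16 (by decide +kernel)
theorem NMC_h18 : Dm PLm [(![0, 1, 0, 0, 0, 0], true)] := Dm.co1 ![0, 1, 1, 1, 1, 0] ![0, 0, -1, -1, -1, 0] ![0, 1, 0, 0, 0, 0] [] [(![0, 1, 0, 1, 1, 1], true)] NMC_h11 NMC_h5 (by decide +kernel)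
theorem NMC_h19 : Dm PLm [(![1, 2, 2, 3, 2, 1], true), (![0, 1, 1, 2, 2, 1], true)] := Dm.swp _ _ NMC_h2 (by decide +kernel)
theorem NMC_h20 : Dm PLm [(![0, 1, 1, 2, 2, 1], true), (![0, 0, 1, 1, 1, 0], true)] := Dm.co2 ![1, 2, 2, 3, 2, 1] ![-1, -1, -1, -1, 0, 0] ![0, 1, 1, 2, 2, 1] ![0, 0, 1, 1, 1, 0] [(![0, 1, 1, 2, 2, 1], true)] [] NMC_h19 NMC_h14 (by decide +kernel)
theorem NMC_h21 : Dm PLm [(![0, 0, 1, 1, 1, 0], true), (![0, 1, 1, 2, 2, 1], true)] := Dm.swp _ _ NMC_h20 (by decide +kernel)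
theorem NMC_h22 : Dm PLm [(![-1, 0, -1, -1, -1, -1], true)] := Dm.co1 ![0, 1, 0, 1, 0, 0] ![-1, -1, -1, -2, -1, -1] ![-1, 0, -1, -1, -1, -1] [] [(![-1, 0, 0, 0, 0, 0], true)] NMC_h15 NMC_h4 (by decide +kernel)
theorem NMC_h23 : Dm PLm [(![-1, 0, -1, 0, 0, 0], true), (![-1, -1, -1, -1, -1, -1], true)] := Dm.co2 ![0, 1, 0, 1, 0, 0] ![-1, -1, -1, -1, 0, 0] ![-1, 0, -1, 0, 0, 0] ![-1, -1, -1, -1, -1, -1] [] [] NMC_h15 NMC_h14 (by decide +kernel)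
theorem NMC_h24 : Dm PLm [(![-1, -1, -1, -1, -1, -1], true), (![-1, 0, -1, 0, 0, 0], true)] := Dm.swp _ _ NMC_h23 (by decide +kernel)
theorem NMC_h25 : Dm PLm [(![1, 2, 2, 3, 2, 1], true), (![0, 1, 1, 2, 2, 1], true)] := Dm.swp _ _ NMC_h2 (by decide +kernel)
theorem NMC_h26 : Dm PLm [(![1, 1, 2, 3, 2, 1], true)] := Dm.co1 ![0, -1, 0, 0, 0, 0] ![1, 2, 2, 3, 2, 1] ![1, 1, 2, 3, 2, 1] [(![0, 0, 0, 1, 1, 0], true)] [(![0, 1, 1, 2, 2, 1], true)] NMC_h17 NMC_h25 (by decide +kernel)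
theorem NMC_h27 : Dm PLm [(![0, 0, 1, 1, 1, 0], true)] := Dm.co1 ![0, -1, 0, 0, 0, 0] ![0, 1, 1, 1, 1, 0] ![0, 0, 1, 1, 1, 0] [(![0, 0, 0, 1, 1, 0], true)] [] NMC_h17 NMC_h11 (by decide +kernel)
theorem NMC_h28 : Dm PLm [(![0, 0, 0, 1, 0, 0], true)] := Dm.co1 ![0, -1, 0, 0, 0, 0] ![0, 1, 0, 1, 0, 0] ![0, 0, 0, 1, 0, 0] [(![0, 0, 0, 1, 1, 0], true)] [] NMC_h17 NMC_h15 (by decide +kernel)
theorem NMC_h29 : Dm PLm [(![-1, 0, -1, -1, 0, 0], true), (![-1, -1, -1, -2, -1, -1], true)] := Dm.co2 ![0, 1, 0, 0, 0, 0] ![-1, -1, -1, -1, 0, 0] ![-1, 0, -1, -1, 0, 0] ![-1, -1, -1, -2, -1, -1] [] [] NMC_h18 NMC_h14 (by decide +kernel)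
theorem NMC_h30 : Dm PLm [(![-1, -1, -1, -2, -1, -1], true), (![-1, 0, -1, -1, 0, 0], true)] := Dm.swp _ _ NMC_h29 (by decide +kernel)
theorem NMC_h31 : Dm PLm [(![0, 1, 1, 2, 2, 1], true), (![0, 0, 1, 1, 1, 0], true)] := Dm.swp _ _ NMC_h21 (by decide +kernel)
theorem NMC_h32 : Dm PLm [(![0, -1, 0, -1, -1, 0], true), (![0, -1, 0, 0, 0, 0], false)] := Dm.flp ![0, -1, -1, -1, 0, 0] ![0, -1, 0, -1, -1, 0] true _ NMC_h7 (by decide +kernel)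
theorem NMC_h33 : Dm PLm [(![0, 0, 1, 1, 1, 1], true)] := Dm.co1 ![0, 1, 1, 2, 2, 1] ![0, -1, 0, -1, -1, 0] ![0, 0, 1, 1, 1, 1] [(![0, 0, 1, 1, 1, 0], true)] [(![0, -1, 0, 0, 0, 0], false)] NMC_h31 NMC_h32 (by decide +kernel)
theorem NMC_h34 : Dm PLm [(![0, 1, 1, 2, 2, 1], true), (![0, 0, 1, 1, 1, 0], true)] := Dm.swp _ _ NMC_h21 (by decide +kernel)
theorem NMC_h35 : Dm PLm [(![0, 1, 1, 2, 2, 1], true)] := Dm.spl _ _ NMC_h34 NMC_h27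
theorem NMC_h36 : Dm PLm [(![-1, -1, -1, -1, -1, -1], true)] := Dm.co1 ![-1, 0, -1, -1, -1, -1] ![0, -1, 0, 0, 0, 0] ![-1, -1, -1, -1, -1, -1] [] [(![0, 0, 0, 1, 1, 0], true)] NMC_h22 NMC_h17 (by decide +kernel)
theorem NMC_h37 : Dm PLm [(![-1, 0, -1, 0, 0, 0], true), (![-1, -1, -1, -1, -1, -1], true)] := Dm.swp _ _ NMC_h24 (by decide +kernel)
theorem NMC_h38 : Dm PLm [(![0, -1, 0, -1, -1, 0], true), (![0, -1, 0, 0, 0, 0], false)] := Dm.flp ![0, -1, -1, -1, 0, 0] ![0, -1, 0, -1, -1, 0] true _ NMC_h7 (by decide +kernel)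
theorem NMC_h39 : Dm PLm [(![-1, -1, -1, -1, -1, 0], true)] := Dm.co1 ![-1, 0, -1, 0, 0, 0] ![0, -1, 0, -1, -1, 0] ![-1, -1, -1, -1, -1, 0] [(![-1, -1, -1, -1, -1, -1], true)] [(![0, -1, 0, 0, 0, 0], false)] NMC_h37 NMC_h38 (by decide +kernel)
theorem NMC_h40 : Dm PLm [(![1, 1, 1, 2, 1, 1], true)] := Dm.co1 ![1, 1, 2, 3, 2, 1] ![0, 0, -1, -1, -1, 0] ![1, 1, 1, 2, 1, 1] [] [(![0, 1, 0, 1, 1, 1], true)] NMC_h26 NMC_h5 (by decide +kernel)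
theorem NMC_h41 : Dm PLm [(![1, 2, 2, 3, 2, 1], true)] := Dm.co1 ![1, 1, 2, 3, 2, 1] ![0, 1, 0, 0, 0, 0] ![1, 2, 2, 3, 2, 1] [] [] NMC_h26 NMC_h18 (by decide +kernel)
theorem NMC_h42 : Dm PLm [(![-1, 0, -1, -1, 0, 0], true), (![-1, -1, -1, -2, -1, -1], true)] := Dm.swp _ _ NMC_h30 (by decide +kernel)
theorem NMC_h43 : Dm PLm [(![0, 0, 0, 1, 1, 0], true), (![-1, -1, -1, -1, -1, -1], true)] := Dm.swp _ _ NMC_h3 (by decide +kernel)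
theorem NMC_h44 : Dm PLm [(![0, 0, 1, 1, 0, 0], true), (![-1, -1, -1, -1, -1, -1], true)] := Dm.flp ![0, 0, 0, 1, 1, 0] ![0, 0, 1, 1, 0, 0] true _ NMC_h43 (by decide +kernel)
theorem NMC_h45 : Dm PLm [(![-1, 0, 0, 0, 0, 0], true)] := Dm.co1 ![-1, 0, -1, -1, 0, 0] ![0, 0, 1, 1, 0, 0] ![-1, 0, 0, 0, 0, 0] [(![-1, -1, -1, -2, -1, -1], true)] [(![-1, -1, -1, -1, -1, -1], true)] NMC_h42 NMC_h44 (by decide +kernel)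
theorem NMC_h46 : Dm PLm [(![1, 1, 1, 1, 0, 0], true), (![1, 2, 2, 3, 2, 1], true)] := Dm.flp ![0, 1, 0, 1, 1, 1] ![1, 1, 1, 1, 0, 0] true _ NMC_h12 (by decide +kernel)
theorem NMC_h47 : Dm PLm [(![1, 1, 2, 2, 1, 1], true)] := Dm.co1 ![0, 0, 1, 1, 1, 1] ![1, 1, 1, 1, 0, 0] ![1, 1, 2, 2, 1, 1] [] [(![1, 2, 2, 3, 2, 1], true)] NMC_h33 NMC_h46 (by decide +kernel)
theorem NMC_h48 : Dm PLm [(![1, 1, 1, 2, 2, 1], true)] := Dm.flp ![1, 1, 2, 2, 1, 1] ![1, 1, 1, 2, 2, 1] true _ NMC_h47 (by decide +kernel)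
theorem NMC_h49 : Dm PLm [(![0, 1, 1, 2, 1, 1], true), (![1, 1, 2, 3, 2, 1], true)] := Dm.co2 ![0, 1, 0, 1, 0, 0] ![0, 0, 1, 1, 1, 1] ![0, 1, 1, 2, 1, 1] ![1, 1, 2, 3, 2, 1] [] [] NMC_h15 NMC_h33 (by decide +kernel)
theorem NMC_h50 : Dm PLm [(![0, 1, 1, 1, 1, 1], true), (![1, 1, 2, 2, 2, 1], true)] := Dm.co2 ![0, 1, 0, 0, 0, 0] ![0, 0, 1, 1, 1, 1] ![0, 1, 1, 1, 1, 1] ![1, 1, 2, 2, 2, 1] [] [] NMC_h18 NMC_h33 (by decide +kernel)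
theorem NMC_h51 : Dm PLm [(![-1, 0, -1, 0, 0, 0], true), (![-1, -1, -1, -1, -1, -1], true)] := Dm.swp _ _ NMC_h24 (by decide +kernel)
theorem NMC_h52 : Dm PLm [(![0, 0, 0, 0, -1, -1], true), (![-1, -1, -1, -1, -1, -1], true)] := Dm.flp ![-1, 0, -1, 0, 0, 0] ![0, 0, 0, 0, -1, -1] true _ NMC_h51 (by decide +kernel)
theorem NMC_h53 : Dm PLm [(![0, 0, 1, 1, 0, 0], true)] := Dm.co1 ![0, 0, 1, 1, 1, 1] ![0, 0, 0, 0, -1, -1] ![0, 0, 1, 1, 0, 0] [] [(![-1, -1, -1, -1, -1, -1], true)] NMC_h33 NMC_h52 (by decide +kernel)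
theorem NMC_h54 : Dm PLm [(![0, 0, 0, 1, 1, 0], true)] := Dm.flp ![0, 0, 1, 1, 0, 0] ![0, 0, 0, 1, 1, 0] true _ NMC_h53 (by decide +kernel)
theorem NMC_h55 : Dm PLm [(![-1, 0, -1, -1, 0, 0], true), (![-1, -1, -1, -2, -1, -1], true)] := Dm.swp _ _ NMC_h30 (by decide +kernel)
theorem NMC_h56 : Dm PLm [(![0, 0, 0, -1, -1, -1], true), (![-1, -1, -1, -2, -1, -1], true)] := Dm.flp ![-1, 0, -1, -1, 0, 0] ![0, 0, 0, -1, -1, -1] true _ NMC_h55 (by decide +kernel)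
theorem NMC_h57 : Dm PLm [(![0, 0, 1, 0, 0, 0], true)] := Dm.co1 ![0, 0, 1, 1, 1, 1] ![0, 0, 0, -1, -1, -1] ![0, 0, 1, 0, 0, 0] [] [(![-1, -1, -1, -2, -1, -1], true)] NMC_h33 NMC_h56 (by decide +kernel)
theorem NMC_h58 : Dm PLm [(![0, 0, 0, 0, 1, 0], true)] := Dm.flp ![0, 0, 1, 0, 0, 0] ![0, 0, 0, 0, 1, 0] true _ NMC_h57 (by decide +kernel)
theorem NMC_h59 : Dm PLm [(![-1, -1, -1, -2, -1, -1], true)] := Dm.spl _ _ NMC_h4 NMC_h45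
theorem NMC_h60 : Dm PLm [(![0, 1, 0, 1, 1, 1], true)] := Dm.spl _ _ NMC_h12 NMC_h41
theorem NMC_h61 : Dm PLm [(![0, -1, 0, 0, 0, 0], true)] := Dm.spl _ _ NMC_h17 NMC_h54
theorem NMC_h62 : Dm PLm [(![-1, 0, -1, 0, 0, 0], true), (![-1, -1, -1, -1, -1, -1], true)] := Dm.swp _ _ NMC_h24 (by decide +kernel)
theorem NMC_h63 : Dm PLm [(![-1, 0, -1, 0, 0, 0], true)] := Dm.spl _ _ NMC_h62 NMC_h36
theorem NMC_h64 : Dm PLm [(![-1, 0, -1, -1, 0, 0], true), (![-1, -1, -1, -2, -1, -1], true)] := Dm.swp _ _ NMC_h30 (by decide +kernel)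
theorem NMC_h65 : Dm PLm [(![-1, 0, -1, -1, 0, 0], true)] := Dm.spl _ _ NMC_h64 NMC_h59
theorem NMC_h66 : Dm PLm [(![0, 1, 1, 2, 1, 1], true)] := Dm.spl _ _ NMC_h49 NMC_h26
theorem NMC_h67 : Dm PLm [(![0, 1, 0, 1, 1, 1], true), (![0, 0, -1, -1, -1, 0], true)] := Dm.swp _ _ NMC_h5 (by decide +kernel)
theorem NMC_h68 : Dm PLm [(![1, 1, 1, 1, 0, 0], true), (![0, 0, -1, -1, -1, 0], true)] := Dm.flp ![0, 1, 0, 1, 1, 1] ![1, 1, 1, 1, 0, 0] true _ NMC_h67 (by decide +kernel)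
theorem NMC_h69 : Dm PLm [(![0, 0, 0, 0, -1, 0], true)] := Dm.co1 ![-1, -1, -1, -1, -1, 0] ![1, 1, 1, 1, 0, 0] ![0, 0, 0, 0, -1, 0] [] [(![0, 0, -1, -1, -1, 0], true)] NMC_h39 NMC_h68 (by decide +kernel)
theorem NMC_h70 : Dm PLm [(![0, 0, -1, 0, 0, 0], true)] := Dm.flp ![0, 0, 0, 0, -1, 0] ![0, 0, -1, 0, 0, 0] true _ NMC_h69 (by decide +kernel)
theorem NMC_h71 : Dm PLm [(![-1, 0, -1, -1, 0, 0], true), (![-1, -1, -1, -2, -1, -1], true)] := Dm.swp _ _ NMC_h30 (by decide +kernel)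
theorem NMC_h72 : Dm PLm [(![0, 0, 0, -1, -1, -1], true), (![-1, -1, -1, -2, -1, -1], true)] := Dm.flp ![-1, 0, -1, -1, 0, 0] ![0, 0, 0, -1, -1, -1] true _ NMC_h71 (by decide +kernel)
theorem NMC_h73 : Dm PLm [(![-1, -1, -1, -2, -2, -1], true)] := Dm.co1 ![-1, -1, -1, -1, -1, 0] ![0, 0, 0, -1, -1, -1] ![-1, -1, -1, -2, -2, -1] [] [(![-1, -1, -1, -2, -1, -1], true)] NMC_h39 NMC_h72 (by decide +kernel)
theorem NMC_h74 : Dm PLm [(![-1, -1, -2, -2, -1, -1], true)] := Dm.flp ![-1, -1, -1, -2, -2, -1] ![-1, -1, -2, -2, -1, -1] true _ NMC_h73 (by decide +kernel)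
theorem NMC_h75 : Dm PLm [(![1, 1, 1, 1, 0, 0], true), (![1, 2, 2, 3, 2, 1], true)] := Dm.flp ![0, 1, 0, 1, 1, 1] ![1, 1, 1, 1, 0, 0] true _ NMC_h12 (by decide +kernel)
theorem NMC_h76 : Dm PLm [(![0, 1, 1, 1, 0, 0], true)] := Dm.co1 ![-1, 0, 0, 0, 0, 0] ![1, 1, 1, 1, 0, 0] ![0, 1, 1, 1, 0, 0] [] [(![1, 2, 2, 3, 2, 1], true)] NMC_h45 NMC_h75 (by decide +kernel)
theorem NMC_h77 : Dm PLm [(![0, 1, 0, 1, 1, 0], true)] := Dm.flp ![0, 1, 1, 1, 0, 0] ![0, 1, 0, 1, 1, 0] true _ NMC_h76 (by decide +kernel)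
theorem NMC_h78 : Dm PLm [(![0, 0, 0, 1, 1, 1], true)] := Dm.co1 ![1, 1, 1, 2, 2, 1] ![-1, -1, -1, -1, -1, 0] ![0, 0, 0, 1, 1, 1] [] [] NMC_h48 NMC_h39 (by decide +kernel)
theorem NMC_h79 : Dm PLm [(![1, 1, 2, 2, 2, 1], true), (![0, 1, 1, 1, 1, 1], true)] := Dm.swp _ _ NMC_h50 (by decide +kernel)
theorem NMC_h80 : Dm PLm [(![1, 1, 1, 1, 1, 1], true)] := Dm.co1 ![1, 1, 2, 2, 2, 1] ![0, 0, -1, -1, -1, 0] ![1, 1, 1, 1, 1, 1] [(![0, 1, 1, 1, 1, 1], true)] [(![0, 1, 0, 1, 1, 1], true)] NMC_h79 NMC_h5 (by decide +kernel)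
theorem NMC_h81 : Dm PLm [(![1, 1, 1, 1, 0, 0], true), (![1, 2, 2, 3, 2, 1], true)] := Dm.flp ![0, 1, 0, 1, 1, 1] ![1, 1, 1, 1, 0, 0] true _ NMC_h12 (by decide +kernel)
theorem NMC_h82 : Dm PLm [(![1, 1, 1, 1, 1, 0], true)] := Dm.co1 ![0, 0, 0, 0, 1, 0] ![1, 1, 1, 1, 0, 0] ![1, 1, 1, 1, 1, 0] [] [(![1, 2, 2, 3, 2, 1], true)] NMC_h58 NMC_h81 (by decide +kernel)
theorem NMC_h83 : Dm PLm [(![0, 1, 1, 1, 1, 1], true)] := Dm.flp ![1, 1, 1, 1, 1, 0] ![0, 1, 1, 1, 1, 1] true _ NMC_h82 (by decide +kernel)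
theorem NMC_h84 : Dm PLm [(![0, 0, -1, -1, -1, 0], true)] := Dm.spl _ _ NMC_h5 NMC_h60
theorem NMC_h85 : Dm PLm [(![1, 1, 2, 2, 2, 1], true), (![0, 1, 1, 1, 1, 1], true)] := Dm.swp _ _ NMC_h50 (by decide +kernel)
theorem NMC_h86 : Dm PLm [(![1, 1, 2, 2, 2, 1], true)] := Dm.spl _ _ NMC_h85 NMC_h83
theorem NMC_h87 : Dm PLm [(![0, 0, 0, -1, -1, -1], true)] := Dm.flp ![-1, 0, -1, -1, 0, 0] ![0, 0, 0, -1, -1, -1] true _ NMC_h65 (by decide +kernel)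
theorem NMC_h88 : Dm PLm [(![0, 0, -1, -1, -1, -1], true)] := Dm.co1 ![0, 0, -1, 0, 0, 0] ![0, 0, 0, -1, -1, -1] ![0, 0, -1, -1, -1, -1] [] [] NMC_h70 NMC_h87 (by decide +kernel)
theorem NMC_h89 : Dm PLm [(![-1, 0, -1, -1, -1, 0], true)] := Dm.flp ![0, 0, -1, -1, -1, -1] ![-1, 0, -1, -1, -1, 0] true _ NMC_h88 (by decide +kernel)
theorem NMC_h90 : Dm PLm [(![0, 0, 0, 0, 1, 1], true), (![0, -1, 0, -1, 0, 0], true)] := Dm.co2 ![1, 1, 1, 1, 1, 1] ![-1, -1, -1, -1, 0, 0] ![0, 0, 0, 0, 1, 1] ![0, -1, 0, -1, 0, 0] [] [] NMC_h80 NMC_h14 (by decide +kernel)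
theorem NMC_h91 : Dm PLm [(![0, -1, 0, -1, 0, 0], true), (![0, 0, 0, 0, 1, 1], true)] := Dm.swp _ _ NMC_h90 (by decide +kernel)
theorem NMC_h92 : Dm PLm [(![0, 0, 0, -1, 0, 0], true)] := Dm.co1 ![1, 1, 1, 1, 1, 1] ![-1, -1, -1, -2, -1, -1] ![0, 0, 0, -1, 0, 0] [] [(![-1, 0, -1, -1, 0, 0], true)] NMC_h80 NMC_h30 (by decide +kernel)
theorem NMC_h93 : Dm PLm [(![0, 0, 0, 0, 0, 1], true), (![0, -1, -1, -1, -1, 0], true)] := Dm.co2 ![1, 1, 1, 1, 1, 1] ![-1, -1, -1, -1, -1, 0] ![0, 0, 0, 0, 0, 1] ![0, -1, -1, -1, -1, 0] [] [] NMC_h80 NMC_h39 (by decide +kernel)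
theorem NMC_h94 : Dm PLm [(![0, -1, -1, -1, -1, 0], true), (![0, 0, 0, 0, 0, 1], true)] := Dm.swp _ _ NMC_h93 (by decide +kernel)
theorem NMC_h95 : Dm PLm [(![1, 0, 1, 1, 1, 1], true)] := Dm.co1 ![1, 1, 1, 1, 1, 1] ![0, -1, 0, 0, 0, 0] ![1, 0, 1, 1, 1, 1] [] [] NMC_h80 NMC_h61 (by decide +kernel)
theorem NMC_h96 : Dm PLm [(![0, 0, -1, -1, 0, 0], true), (![-1, -1, -2, -3, -2, -1], true)] := Dm.co2 ![1, 1, 1, 1, 1, 1] ![-1, -1, -2, -2, -1, -1] ![0, 0, -1, -1, 0, 0] ![-1, -1, -2, -3, -2, -1] [] [] NMC_h80 NMC_h74 (by decide +kernel)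
theorem NMC_h97 : Dm PLm [(![-1, -1, -2, -3, -2, -1], true), (![0, 0, -1, -1, 0, 0], true)] := Dm.swp _ _ NMC_h96 (by decide +kernel)
theorem NMC_h98 : Dm PLm [(![-1, -1, -2, -2, -2, -1], true)] := Dm.co1 ![0, 0, -1, -1, -1, 0] ![-1, -1, -1, -1, -1, -1] ![-1, -1, -2, -2, -2, -1] [] [(![-1, 0, -1, 0, 0, 0], true)] NMC_h84 NMC_h24 (by decide +kernel)
theorem NMC_h99 : Dm PLm [(![-1, -1, -2, -3, -2, -1], true)] := Dm.co1 ![0, 0, -1, -1, -1, 0] ![-1, -1, -1, -2, -1, -1] ![-1, -1, -2, -3, -2, -1] [] [(![-1, 0, -1, -1, 0, 0], true)] NMC_h84 NMC_h30 (by decide +kernel)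
theorem NMC_h100 : Dm PLm [(![0, 0, 0, 0, 0, 1], true), (![1, 0, 1, 1, 1, 1], true)] := Dm.co2 ![0, 0, -1, -1, -1, 0] ![0, 0, 1, 1, 1, 1] ![0, 0, 0, 0, 0, 1] ![1, 0, 1, 1, 1, 1] [] [] NMC_h84 NMC_h33 (by decide +kernel)
theorem NMC_h101 : Dm PLm [(![0, -1, -1, -1, -1, 0], true)] := Dm.co1 ![0, 0, -1, -1, -1, 0] ![0, -1, 0, 0, 0, 0] ![0, -1, -1, -1, -1, 0] [] [] NMC_h84 NMC_h61 (by decide +kernel)
theorem NMC_h102 : Dm PLm [(![0, 0, 0, 0, 0, 1], true), (![0, -1, -1, -1, -1, 0], true)] := Dm.swp _ _ NMC_h94 (by decide +kernel)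
theorem NMC_h103 : Dm PLm [(![0, 0, 0, 0, 0, 1], true)] := Dm.spl _ _ NMC_h102 NMC_h101
theorem NMC_h104 : Dm PLm [(![0, 0, -1, -1, 0, 0], true), (![-1, -1, -2, -3, -2, -1], true)] := Dm.swp _ _ NMC_h97 (by decide +kernel)
theorem NMC_h105 : Dm PLm [(![0, 0, -1, -1, 0, 0], true)] := Dm.spl _ _ NMC_h104 NMC_h99
theorem NMC_h106 : Dm PLm [(![0, 0, 0, 0, 1, 1], true), (![0, -1, 0, -1, 0, 0], true)] := Dm.swp _ _ NMC_h91 (by decide +kernel)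
theorem NMC_h107 : Dm PLm [(![0, -1, -1, -1, -1, -1], true)] := Dm.flp ![-1, -1, -1, -1, -1, 0] ![0, -1, -1, -1, -1, -1] true _ NMC_h39 (by decide +kernel)
theorem NMC_h108 : Dm PLm [(![0, -1, -1, -1, 0, 0], true)] := Dm.co1 ![0, 0, 0, 0, 1, 1] ![0, -1, -1, -1, -1, -1] ![0, -1, -1, -1, 0, 0] [(![0, -1, 0, -1, 0, 0], true)] [] NMC_h106 NMC_h107 (by decide +kernel)
theorem NMC_h109 : Dm PLm [(![0, 0, 0, 0, 1, 1], true), (![0, -1, 0, -1, 0, 0], true)] := Dm.swp _ _ NMC_h91 (by decide +kernel)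
theorem NMC_h110 : Dm PLm [(![-1, -1, -1, -2, -2, -1], true)] := Dm.flp ![-1, -1, -2, -2, -1, -1] ![-1, -1, -1, -2, -2, -1] true _ NMC_h74 (by decide +kernel)
theorem NMC_h111 : Dm PLm [(![-1, -1, -1, -2, -1, 0], true)] := Dm.co1 ![0, 0, 0, 0, 1, 1] ![-1, -1, -1, -2, -2, -1] ![-1, -1, -1, -2, -1, 0] [(![0, -1, 0, -1, 0, 0], true)] [] NMC_h109 NMC_h110 (by decide +kernel)
theorem NMC_h112 : Dm PLm [(![0, -1, -1, -2, -1, 0], true)] := Dm.co1 ![0, -1, 0, -1, 0, 0] ![0, 0, -1, -1, -1, 0] ![0, -1, -1, -2, -1, 0] [(![0, 0, 0, 0, 1, 1], true)] [] NMC_h91 NMC_h84 (by decide +kernel)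
theorem NMC_h113 : Dm PLm [(![0, -1, 0, -1, 0, 0], true)] := Dm.co1 ![0, 0, 0, -1, 0, 0] ![0, -1, 0, 0, 0, 0] ![0, -1, 0, -1, 0, 0] [] [] NMC_h92 NMC_h61 (by decide +kernel)
theorem NMC_h114 : Dm PLm [(![0, 0, 0, 0, 0, 1], true), (![0, -1, -1, -1, -1, 0], true)] := Dm.swp _ _ NMC_h94 (by decide +kernel)
theorem NMC_h115 : Dm PLm [(![-1, -1, -2, -2, -1, 0], true)] := Dm.co1 ![0, 0, 0, 0, 0, 1] ![-1, -1, -2, -2, -1, -1] ![-1, -1, -2, -2, -1, 0] [(![0, -1, -1, -1, -1, 0], true)] [] NMC_h114 NMC_h74 (by decide +kernel)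
theorem NMC_h116 : Dm PLm [(![-1, -2, -2, -3, -2, -1], true)] := Dm.co1 ![-1, -1, -2, -3, -2, -1] ![0, -1, 0, 0, 0, 0] ![-1, -2, -2, -3, -2, -1] [] [] NMC_h99 NMC_h61 (by decide +kernel)
theorem NMC_h117 : Dm PLm [(![0, 0, 0, 0, 1, 1], true)] := Dm.co1 ![0, 0, 0, 0, 0, 1] ![0, 0, 0, 0, 1, 0] ![0, 0, 0, 0, 1, 1] [(![1, 0, 1, 1, 1, 1], true)] [] NMC_h100 NMC_h58 (by decide +kernel)
theorem NMC_h118 : Dm PLm [(![0, -1, 0, 0, 0, 0], false), (![0, -1, -1, -1, 0, 0], true)] := Dm.swp _ _ NMC_h7 (by decide +kernel)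
theorem NMC_h119 : Dm PLm [(![0, -1, 0, 0, 0, 0], false)] := Dm.spl _ _ NMC_h118 NMC_h108

theorem NMC_all : ∀ α ∈ RL, Dm PLm [(α, true)] := by
  unfold RL
  simp only [List.mem_cons, List.not_mem_nil, or_false, forall_eq_or_imp, forall_eq]
  refine ⟨NMC_h103, NMC_h58, NMC_h28, (Dm.flp ![0, 0, 0, 0, 1, 0] ![0, 0, 1, 0, 0, 0] true [] NMC_h58 (by decide +kernel)), NMC_h18, (Dm.flp ![0, 0, 0, 0, 0, 1] ![1, 0, 0, 0, 0, 0] true [] NMC_h103 (by decide +kernel)), NMC_h117, NMC_h54, (Dm.flp ![0, 0, 0, 1, 1, 0] ![0, 0, 1, 1, 0, 0] true [] NMC_h54 (by decide +kernel)), NMC_h15, (Dm.flp ![0, 0, 0, 0, 1, 1] ![1, 0, 1, 0, 0, 0] true [] NMC_h117 (by decide +kernel)), NMC_h78, NMC_h27, NMC_h77, (Dm.flp ![0, 1, 0, 1, 1, 0] ![0, 1, 1, 1, 0, 0] true [] NMC_h77 (by decide +kernel)), (Dm.flp ![0, 0, 0, 1, 1, 1] ![1, 0, 1, 1, 0,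 0] true [] NMC_h78 (by decide +kernel)), NMC_h33, NMC_h60, NMC_h11, (Dm.flp ![0, 0, 1, 1, 1, 1] ![1, 0, 1, 1, 1, 0] true [] NMC_h33 (by decide +kernel)), (Dm.flp ![0, 1, 0, 1, 1, 1] ![1, 1, 1, 1, 0, 0] true [] NMC_h60 (by decide +kernel)), NMC_h83, NMC_h9, NMC_h95, (Dm.flp ![0, 1, 1, 1, 1, 1] ![1, 1, 1, 1, 1, 0] true [] NMC_h83 (by decide +kernel)), NMC_h66, NMC_h80, (Dm.flp ![0, 1, 1, 2, 1, 1] ![1, 1, 1, 2, 1, 0] true [] NMC_h66 (by decide +kernel)), NMC_h35, NMC_h40, (Dm.flp ![0, 1, 1, 2, 2, 1] ![1, 1, 2, 2, 1, 0] true [] NMC_h35 (by decide +kernel)), NMC_h48, (Dm.flp ![1, 1, 1, 2, 2, 1] ![1, 1, 2, 2, 1, 1] true [] NMC_h48 (by decide +kernel)), NMC_h86, NMC_h26, NMC_h41, (Dm.flp ![-1, 0, 0, 0, 0, 0] ![0, 0, 0, 0, 0, -1] true [] NMC_h45 (by decide +kernel)), (Dm.flp ![0, 0, -1, 0, 0, 0] ![0, 0, 0, 0, -1, 0]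 true [] NMC_h70 (by decide +kernel)), NMC_h92, NMC_h70, NMC_h61, NMC_h45, (Dm.flp ![-1, 0, -1, 0, 0, 0] ![0, 0, 0, 0, -1, -1] true [] NMC_h63 (by decide +kernel)), (Dm.flp ![0, 0, -1, -1, 0, 0] ![0, 0, 0, -1, -1, 0] true [] NMC_h105 (by decide +kernel)), NMC_h105, NMC_h113, NMC_h63, (Dm.flp ![-1, 0, -1, -1, 0, 0] ![0, 0, 0, -1, -1, -1] true [] NMC_h65 (by decide +kernel)), NMC_h84, (Dm.flp ![0, -1, -1, -1, 0, 0] ![0, -1, 0, -1, -1, 0] true [] NMC_h108 (by decide +kernel)), NMC_h108, NMC_h65, (Dm.flp ![-1, 0, -1, -1, -1, 0] ![0, 0, -1, -1, -1, -1] true [] NMC_h89 (by decide +kernel)), (Dm.flp ![-1, -1, -1, -1, 0, 0] ![0, -1, 0, -1, -1, -1] true [] NMC_h14 (by decide +kernel)), NMC_h101, NMC_h89, NMC_h14, (Dm.flp ![-1, -1, -1, -1, -1, 0] ![0, -1, -1, -1, -1, -1] true [] NMC_h39 (by decide +kernel)), NMC_h112,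 NMC_h22, NMC_h39, (Dm.flp ![-1, -1, -1, -2, -1, 0] ![0, -1, -1, -2, -1, -1] true [] NMC_h111 (by decide +kernel)), NMC_h36, NMC_h111, (Dm.flp ![-1, -1, -2, -2, -1, 0] ![0, -1, -1, -2, -2, -1] true [] NMC_h115 (by decide +kernel)), NMC_h59, NMC_h115, (Dm.flp ![-1, -1, -2, -2, -1, -1] ![-1, -1, -1, -2, -2, -1] true [] NMC_h74 (by decide +kernel)), NMC_h74, NMC_h98, NMC_h99, NMC_h116⟩

theorem NMC_neg : (-sr 1 : Fin 6 → ℤ) = ![0, -1, 0, 0, 0, 0] := by decide +kernel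

theorem NMC : NMC_stmt := by
  refine ⟨by unfold PLm; decide +kernel, fun α hα => NMC_all α ((LST α).1 hα), ?_⟩
  rw [NMC_neg]
  exact NMC_h119

end Pool.Agent.EXT
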