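import Pool.Agent.helper53.EXT.SpecM
import Pool.Agent.helper43.EXT.LST

/-! # Row ftm:NMR (MP_561ff4_al): finite facts -/

set_option autoImplicit false

open Finset

namespace Pool.Agent.EXT

open Pool.Agent.EXC

def NMR_t1 : List ((Fin 6 → ℤ) × (Fin 6 → ℤ) × (Fin 6 → ℤ)) := [
  (![0, 0, 0, 1, 0, 0], ![0, 0, 0, 1, 0, 0], ![0, 1, 0, 1, 0, 0]),
  (![0, 1, 0, 0, 0, 0], ![0, 0, 0, 1, 0, 0], ![0, 1, 0, 1, 0, 0]),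
  (![0, 1, 0, 1, 0, 0], ![0, 0, 0, 1, 0, 0], ![0, 1, 1, 2, 1, 0]),
  (![0, 0, 1, 1, 1, 0], ![0, 0, 0, 1, 0, 0], ![0, 1, 1, 2, 1, 0]),
  (![0, 1, 1, 1, 1, 0], ![0, 0, 0, 1, 0, 0], ![0, 1, 1, 2, 1, 0]),
  (![0, 1, 1, 2, 1, 0], ![0, 0, 0, 1, 0, 0], ![0, 1, 0, 1, 0, 0]),
  (![1, 0, 1, 1, 1, 1], ![0, 0, 0, 1, 0, 0], ![1, 1, 1, 2, 1, 1]),
  (![1, 1, 1, 1, 1, 1], ![0, 0, 0, 1, 0, 0], ![1, 1, 1, 2, 1, 1]),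
  (![1, 1, 1, 2, 1, 1], ![0, 0, 0, 1, 0, 0], ![0, 1, 0, 1, 0, 0]),
  (![1, 1, 2, 2, 2, 1], ![0, 0, 0, 1, 0, 0], ![1, 1, 2, 3, 2, 1]),
  (![1, 1, 2, 3, 2, 1], ![0, 0, 0, 1, 0, 0], ![0, 1, 1, 2, 1, 0]),
  (![1, 2, 2, 3, 2, 1], ![0, 0, 0, 1, 0, 0], ![0, 1, 0, 1, 0, 0]),
  (![0, 0, 0, -1, 0, 0], ![0, 0, 1, 1, 1, 0], ![0, 1, 1, 1, 1, 0]),
  (![0, -1, 0, 0, 0, 0], ![0, 0, 0, 1, 0, 0], ![1, 1, 2, 3, 2, 1]),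
  (![0, -1, 0, -1, 0, 0], ![0, 0, 0, 1, 0, 0], ![0, -1, 0, 0, 0, 0]),
  (![0, 0, -1, -1, -1, 0], ![0, 0, 0, 1, 0, 0], ![0, 1, 0, 1, 0, 0]),
  (![0, -1, -1, -1, -1, 0], ![0, 0, 0, 1, 0, 0], ![1, 1, 1, 2, 1, 1]),
  (![0, -1, -1, -2, -1, 0], ![0, 0, 0, 1, 0, 0], ![0, -1, -1, -1, -1, 0]),
  (![-1, 0, -1, -1, -1, -1], ![0, 0, 0, 1, 0, 0], ![0, 1, 0, 1, 0, 0]),
  (![-1, -1, -1, -1, -1, -1], ![0, 0, 0, 1, 0, 0], ![0, 1, 1, 2, 1, 0]),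
  (![-1, -1, -1, -2, -1, -1], ![0, 0, 0, 1, 0, 0], ![-1, -1, -1, -1, -1, -1]),
  (![-1, -1, -2, -2, -2, -1], ![0, 0, 0, 1, 0, 0], ![0, 1, 0, 1, 0, 0]),
  (![-1, -1, -2, -3, -2, -1], ![0, 0, 0, 1, 0, 0], ![-1, -1, -2, -2, -2, -1]),
  (![-1, -2, -2, -3, -2, -1], ![0, 0, 0, 1, 0, 0], ![0, -1, 0, 0, 0, 0])]

def NMR_t2 : List ((Fin 6 → ℤ) × (Fin 6 → ℤ) × (Fin 6 → ℤ)) := [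
  (![0, 0, 0, 1, 0, 0], ![0, 1, 0, 1, 0, 0], ![0, -1, 0, 0, 0, 0]),
  (![0, 1, 0, 0, 0, 0], ![0, 1, 0, 1, 0, 0], ![0, 0, 0, -1, 0, 0]),
  (![0, 1, 0, 1, 0, 0], ![0, 0, 0, 1, 0, 0], ![0, 1, 0, 0, 0, 0]),
  (![0, 0, 1, 1, 1, 0], ![0, 1, 1, 1, 1, 0], ![0, -1, 0, 0, 0, 0]),
  (![0, 1, 1, 1, 1, 0], ![0, 1, 0, 0, 0, 0], ![0, 0, 1, 1, 1, 0]),
  (![0, 1, 1, 2, 1, 0], ![0, 0, 0, 1, 0, 0], ![0, 1, 1, 1, 1, 0]),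
  (![1, 0, 1, 1, 1, 1], ![1, 1, 1, 1, 1, 1], ![0, -1, 0, 0, 0, 0]),
  (![1, 1, 1, 1, 1, 1], ![0, 1, 0, 0, 0, 0], ![1, 0, 1, 1, 1, 1]),
  (![1, 1, 1, 2, 1, 1], ![0, 0, 0, 1, 0, 0], ![1, 1, 1, 1, 1, 1]),
  (![1, 1, 2, 2, 2, 1], ![0, 0, 1, 1, 1, 0], ![1, 1, 1, 1, 1, 1]),
  (![1, 1, 2, 3, 2, 1], ![0, 0, 0, 1, 0, 0], ![1, 1, 2, 2, 2, 1]),
  (![1, 2, 2, 3, 2, 1], ![0, 1, 0, 0, 0, 0], ![1, 1, 2, 3, 2, 1]),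
  (![0, 0, 0, -1, 0, 0], ![0, 1, 0, 0, 0, 0], ![0, -1, 0, -1, 0, 0]),
  (![0, -1, 0, 0, 0, 0], ![0, 0, 0, 1, 0, 0], ![0, -1, 0, -1, 0, 0]),
  (![0, -1, 0, -1, 0, 0], ![0, 0, 1, 1, 1, 0], ![0, -1, -1, -2, -1, 0]),
  (![0, 0, -1, -1, -1, 0], ![0, 1, 0, 0, 0, 0], ![0, -1, -1, -1, -1, 0]),
  (![0, -1, -1, -1, -1, 0], ![0, 0, 0, 1, 0, 0], ![0, -1, -1, -2, -1, 0]),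
  (![0, -1, -1, -2, -1, 0], ![1, 0, 1, 1, 1, 1], ![-1, -1, -2, -3, -2, -1]),
  (![-1, 0, -1, -1, -1, -1], ![0, 1, 0, 0, 0, 0], ![-1, -1, -1, -1, -1, -1]),
  (![-1, -1, -1, -1, -1, -1], ![0, 0, 0, 1, 0, 0], ![-1, -1, -1, -2, -1, -1]),
  (![-1, -1, -1, -2, -1, -1], ![0, 0, 1, 1, 1, 0], ![-1, -1, -2, -3, -2, -1]),
  (![-1, -1, -2, -2, -2, -1], ![0, 0, 0, 1, 0, 0], ![-1, -1, -2, -3, -2, -1]),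
  (![-1, -1, -2, -3, -2, -1], ![0, 1, 0, 0, 0, 0], ![-1, -2, -2, -3, -2, -1]),
  (![-1, -2, -2, -3, -2, -1], ![0, -1, 0, 0, 0, 0], ![-1, -1, -2, -3, -2, -1])]

def NMR_t3 : List ((Fin 6 → ℤ) × (Fin 6 → ℤ) × (Fin 6 → ℤ)) := [
  (![0, 0, 0, 0, 0, 1], ![1, 0, 1, 1, 1, 1], ![-1, 0, -1, -1, -1, 0]),
  (![0, 0, 0, 0, 1, 0], ![0, 0, 1, 1, 1, 0], ![0, 0, -1, -1, 0, 0]),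
  (![0, 0, 1, 0, 0, 0], ![0, 0, 1, 1, 1, 0], ![0, 0, 0, -1, -1, 0]),
  (![1, 0, 0, 0, 0, 0], ![1, 0, 1, 1, 1, 1], ![0, 0, -1, -1, -1, -1]),
  (![0, 0, 0, 0, 1, 1], ![1, 0, 1, 1, 1, 1], ![-1, 0, -1, -1, 0, 0]),
  (![0, 0, 0, 1, 1, 0], ![0, 0, 0, 1, 0, 0], ![0, 0, 0, 0, 1, 0]),
  (![0, 0, 1, 1, 0, 0], ![0, 0, 0, 1, 0, 0], ![0, 0, 1, 0, 0, 0]),
  (![1, 0, 1, 0, 0, 0], ![1, 0, 1, 1, 1, 1], ![0, 0, 0, -1, -1, -1]),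
  (![0, 0, 0, 1, 1, 1], ![0, 0, 0, 1, 0, 0], ![0, 0, 0, 0, 1, 1]),
  (![0, 1, 0, 1, 1, 0], ![0, 1, 0, 0, 0, 0], ![0, 0, 0, 1, 1, 0]),
  (![0, 1, 1, 1, 0, 0], ![0, 1, 0, 0, 0, 0], ![0, 0, 1, 1, 0, 0]),
  (![1, 0, 1, 1, 0, 0], ![0, 0, 0, 1, 0, 0], ![1, 0, 1, 0, 0, 0]),
  (![0, 0, 1, 1, 1, 1], ![0, 0, 1, 1, 1, 0], ![0, 0, 0, 0, 0, 1]),
  (![0, 1, 0, 1, 1, 1], ![0, 1, 0, 0, 0, 0], ![0, 0, 0, 1, 1, 1]),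
  (![1, 0, 1, 1, 1, 0], ![0, 0, 1, 1, 1, 0], ![1, 0, 0, 0, 0, 0]),
  (![1, 1, 1, 1, 0, 0], ![0, 1, 0, 0, 0, 0], ![1, 0, 1, 1, 0, 0]),
  (![0, 1, 1, 1, 1, 1], ![0, 1, 0, 0, 0, 0], ![0, 0, 1, 1, 1, 1]),
  (![1, 1, 1, 1, 1, 0], ![0, 1, 0, 0, 0, 0], ![1, 0, 1, 1, 1, 0]),
  (![0, 1, 1, 2, 1, 1], ![0, 0, 0, 1, 0, 0], ![0, 1, 1, 1, 1, 1]),
  (![1, 1, 1, 2, 1, 0], ![0, 0, 0, 1, 0, 0], ![1, 1, 1, 1, 1, 0]),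
  (![0, 1, 1, 2, 2, 1], ![0, 0, 1, 1, 1, 0], ![0, 1, 0, 1, 1, 1]),
  (![1, 1, 2, 2, 1, 0], ![0, 0, 1, 1, 1, 0], ![1, 1, 1, 1, 0, 0]),
  (![1, 1, 1, 2, 2, 1], ![1, 0, 1, 1, 1, 1], ![0, 1, 0, 1, 1, 0]),
  (![1, 1, 2, 2, 1, 1], ![1, 0, 1, 1, 1, 1], ![0, 1, 1, 1, 0, 0]),
  (![0, 0, 0, 0, 0, -1], ![0, 0, 1, 1, 1, 0], ![0, 0, -1, -1, -1, -1]),
  (![0, 0, 0, 0, -1, 0], ![0, 0, 0, 1, 0, 0], ![0, 0, 0, -1, -1, 0]),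
  (![0, 0, -1, 0, 0, 0], ![0, 0, 0, 1, 0, 0], ![0, 0, -1, -1, 0, 0]),
  (![-1, 0, 0, 0, 0, 0], ![0, 0, 1, 1, 1, 0], ![-1, 0, -1, -1, -1, 0]),
  (![0, 0, 0, 0, -1, -1], ![0, 0, 0, 1, 0, 0], ![0, 0, 0, -1, -1, -1]),
  (![0, 0, 0, -1, -1, 0], ![0, 1, 0, 0, 0, 0], ![0, -1, 0, -1, -1, 0]),
  (![0, 0, -1, -1, 0, 0], ![0, 1, 0, 0, 0, 0], ![0, -1, -1, -1, 0, 0]),
  (![-1, 0, -1, 0, 0, 0], ![0, 0, 0, 1, 0, 0], ![-1, 0, -1, -1, 0, 0]),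
  (![0, 0, 0, -1, -1, -1], ![0, 1, 0, 0, 0, 0], ![0, -1, 0, -1, -1, -1]),
  (![0, -1, 0, -1, -1, 0], ![1, 0, 1, 1, 1, 1], ![-1, -1, -1, -2, -2, -1]),
  (![0, -1, -1, -1, 0, 0], ![1, 0, 1, 1, 1, 1], ![-1, -1, -2, -2, -1, -1]),
  (![-1, 0, -1, -1, 0, 0], ![0, 1, 0, 0, 0, 0], ![-1, -1, -1, -1, 0, 0]),
  (![0, 0, -1, -1, -1, -1], ![0, 1, 0, 0, 0, 0], ![0, -1, -1, -1, -1, -1]),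
  (![0, -1, 0, -1, -1, -1], ![0, 0, 1, 1, 1, 0], ![0, -1, -1, -2, -2, -1]),
  (![-1, 0, -1, -1, -1, 0], ![0, 1, 0, 0, 0, 0], ![-1, -1, -1, -1, -1, 0]),
  (![-1, -1, -1, -1, 0, 0], ![0, 0, 1, 1, 1, 0], ![-1, -1, -2, -2, -1, 0]),
  (![0, -1, -1, -1, -1, -1], ![0, 0, 0, 1, 0, 0], ![0, -1, -1, -2, -1, -1]),
  (![-1, -1, -1, -1, -1, 0], ![0, 0, 0, 1, 0, 0], ![-1, -1, -1, -2, -1, 0]),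
  (![0, -1, -1, -2, -1, -1], ![0, 0, 0, -1, 0, 0], ![0, -1, -1, -1, -1, -1]),
  (![-1, -1, -1, -2, -1, 0], ![0, 0, 0, -1, 0, 0], ![-1, -1, -1, -1, -1, 0]),
  (![0, -1, -1, -2, -2, -1], ![0, 0, -1, -1, -1, 0], ![0, -1, 0, -1, -1, -1]),
  (![-1, -1, -2, -2, -1, 0], ![0, 0, -1, -1, -1, 0], ![-1, -1, -1, -1, 0, 0]),
  (![-1, -1, -1, -2, -2, -1], ![-1, 0, -1, -1, -1, -1], ![0, -1, 0, -1, -1, 0]),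
  (![-1, -1, -2, -2, -1, -1], ![-1, 0, -1, -1, -1, -1], ![0, -1, -1, -1, 0, 0])]

theorem NMR_c1 : ∀ w ∈ RL, pv w = w → ∃ e ∈ NMR_t1, e.1 = w ∧ (ip C6 e.2.1 e.2.1 = 2 ∧ pv e.2.1 = e.2.1) ∧ (ip C6 e.2.2 e.2.2 = 2 ∧ pv e.2.2 = e.2.2) ∧
    ip C6 (-sr 1) e.2.1 = 1 ∧ ip C6 e.2.1 e.2.2 = 1 ∧ ip C6 e.2.2 e.1 = 1 := by
  decide +kernel

theorem NMR_c2 : ∀ w ∈ RL, pv w = w → ∃ e ∈ NMR_t2, e.1 = w ∧ (ip C6 e.2.1 e.2.1 = 2 ∧ pv e.2.1 = e.2.1) ∧ (ip C6 e.2.2 e.2.2 = 2 ∧ pv e.2.2 = e.2.2) ∧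
    ip C6 e.2.1 e.2.2 = -1 ∧ e.1 = e.2.1 + e.2.2 := by
  decide +kernel

theorem NMR_c3 : ∀ w ∈ RL, pv w ≠ w → ∃ e ∈ NMR_t3, e.1 = w ∧ (ip C6 e.2.1 e.2.1 = 2 ∧ pv e.2.1 = e.2.1) ∧ (ip C6 e.2.2 e.2.2 = 2 ∧ pv e.2.2 ≠ e.2.2) ∧
    ip C6 e.2.1 e.2.2 = -1 ∧ e.1 = e.2.1 + e.2.2 := by
  decide +kernel

theorem NMR_c4 : ∀ a ∈ RL, pv a ≠ a → ∀ b ∈ RL, pv b ≠ b → ip C6 a b = -1 → ip C6 a (pv b) = 0 → ip C6 (a + b) (a + b) = 2 ∧ pv (a + b) ≠ a + b := by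
  decide +kernel

theorem NMR_c5 : ∀ a ∈ RL, pv a = a → ∀ b ∈ RL, pv b ≠ b → ip C6 a b = -1 → (ip C6 (a + b) (a + b) = 2 ∧ pv (a + b) ≠ a + b) ∧
    (ip C6 (a + b + pv b) (a + b + pv b) = 2 ∧ pv (a + b + pv b) = a + b + pv b) := by
  decide +kernel

theorem NMR_c6 : LR ![1, 0, 1, 1, 1, 1] ∧ ip C6 th ![1, 0, 1, 1, 1, 1] = 0 ∧ ip C6 eta ![1, 0, 1, 1, 1, 1] = 1 ∧ ip C6 th (sr 1) = 1 ∧ ip C6 eta (sr 1) = 0 := by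
  unfold LR
  decide +kernel

theorem NMR : NMR_stmt := by
  refine ⟨?_, ?_, ?_, ?_, ?_, NMR_c6⟩
  · rintro w ⟨h1, h2⟩
    obtain ⟨e, -, he, ha, hb, h3, h4, h5⟩ := NMR_c1 w ((LST w).1 h1) h2
    exact ⟨e.2.1, e.2.2, ha, hb, h3, h4, by rw [← he]; exact h5⟩
  · rintro w ⟨h1, h2⟩
    obtain ⟨e, -, he, ha, hb, h3, h4⟩ := NMR_c2 w ((LST w).1 h1) h2
    exact ⟨e.2.1, e.2.2, ha, hb, h3, by rw [← he]; exact h4⟩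
  · rintro w ⟨h1, h2⟩
    obtain ⟨e, -, he, ha, hb, h3, h4⟩ := NMR_c3 w ((LST w).1 h1) h2
    exact ⟨e.2.1, e.2.2, ha, hb, h3, by rw [← he]; exact h4⟩
  · rintro a b ⟨h1, h2⟩ ⟨h3, h4⟩ h5 h6
    exact NMR_c4 a ((LST a).1 h1) h2 b ((LST b).1 h3) h4 h5 h6
  · rintro a b ⟨h1, h2⟩ ⟨h3, h4⟩ h5
    exact NMR_c5 a ((LST a).1 h1) h2 b ((LST b).1 h3) h4 h5

end Pool.Agent.EXT
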