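import Pool.Agent.helper53.EXT.SpecM

/-! # Row ftm:NMW (MP_561ff4_al): words in the relative Weyl group (computer generated) -/

set_option autoImplicit false
set_option linter.style.longLine false

open Finset

namespace Pool.Agent.EXT

open Pool.Agent.EXC

theorem NMW_w0 : WS (th, eta) (![1, 2, 2, 3, 2, 1], ![0, 1, 1, 2, 2, 1]) := by
  have h0 : WS (th, eta) (th, eta) := Relation.ReflTransGen.refl
  have h1 : WS (th, eta) (![1, 2, 2, 3, 2, 1], ![1, 1, 1, 2, 2, 1]) := Relation.ReflTransGen.tail h0 ⟨2, by decide +kernel⟩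
  have h2 : WS (th, eta) (![1, 2, 2, 3, 2, 1], ![0, 1, 1, 2, 2, 1]) := Relation.ReflTransGen.tail h1 ⟨0, by decide +kernel⟩
  exact h2

theorem NMW_w1 : WS (th, eta) (![-1, -1, -1, -1, -1, -1], ![0, 0, 0, 1, 1, 0]) := by
  have h0 : WS (th, eta) (th, eta) := Relation.ReflTransGen.refl
  have h1 : WS (th, eta) (![1, 1, 2, 3, 2, 1], ![1, 1, 2, 2, 1, 1]) := Relation.ReflTransGen.tail h0 ⟨1, by decide +kernel⟩
  have h2 : WS (th, eta) (![1, 1, 2, 2, 2, 1], ![1, 1, 2, 2, 1, 1]) := Relation.ReflTransGen.tail h1 ⟨3, by decide +kernel⟩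
  have h3 : WS (th, eta) (![1, 1, 1, 2, 1, 1], ![1, 1, 1, 2, 2, 1]) := Relation.ReflTransGen.tail h2 ⟨2, by decide +kernel⟩
  have h4 : WS (th, eta) (![0, 1, 1, 2, 1, 0], ![0, 1, 1, 2, 2, 1]) := Relation.ReflTransGen.tail h3 ⟨0, by decide +kernel⟩
  have h5 : WS (th, eta) (![0, 1, 1, 1, 1, 0], ![0, 1, 1, 2, 2, 1]) := Relation.ReflTransGen.tail h4 ⟨3, by decide +kernel⟩
  have h6 : WS (th, eta) (![0, 0, 1, 1, 1, 0], ![0, 1, 1, 2, 2, 1]) := Relation.ReflTransGen.tail h5 ⟨1, by decide +kernel⟩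
  have h7 : WS (th, eta) (![0, 0, 0, 1, 0, 0], ![0, 1, 1, 2, 1, 1]) := Relation.ReflTransGen.tail h6 ⟨2, by decide +kernel⟩
  have h8 : WS (th, eta) (![0, 0, 0, -1, 0, 0], ![0, 1, 1, 1, 1, 1]) := Relation.ReflTransGen.tail h7 ⟨3, by decide +kernel⟩
  have h9 : WS (th, eta) (![0, -1, 0, -1, 0, 0], ![0, 0, 1, 1, 1, 1]) := Relation.ReflTransGen.tail h8 ⟨1, by decide +kernel⟩
  have h10 : WS (th, eta) (![0, -1, -1, -1, -1, 0], ![0, 0, 0, 1, 1, 1]) := Relation.ReflTransGen.tail h9 ⟨2, by decide +kernel⟩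
  have h11 : WS (th, eta) (![-1, -1, -1, -1, -1, -1], ![0, 0, 0, 1, 1, 0]) := Relation.ReflTransGen.tail h10 ⟨0, by decide +kernel⟩
  exact h11

theorem NMW_w2 : WS (th, eta) (![-1, -1, -1, -2, -1, -1], ![-1, 0, 0, 0, 0, 0]) := by
  have h0 : WS (th, eta) (th, eta) := Relation.ReflTransGen.refl
  have h1 : WS (th, eta) (![1, 1, 2, 3, 2, 1], ![1, 1, 2, 2, 1, 1]) := Relation.ReflTransGen.tail h0 ⟨1, by decide +kernel⟩
  have h2 : WS (th, eta) (![1, 1, 2, 3, 2, 1], ![1, 1, 1, 2, 2, 1]) := Relation.ReflTransGen.tail h1 ⟨2, by decide +kernel⟩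
  have h3 : WS (th, eta) (![1, 1, 2, 3, 2, 1], ![0, 1, 1, 2, 2, 1]) := Relation.ReflTransGen.tail h2 ⟨0, by decide +kernel⟩
  have h4 : WS (th, eta) (![1, 1, 2, 2, 2, 1], ![0, 1, 1, 2, 2, 1]) := Relation.ReflTransGen.tail h3 ⟨3, by decide +kernel⟩
  have h5 : WS (th, eta) (![1, 1, 1, 2, 1, 1], ![0, 1, 1, 2, 1, 1]) := Relation.ReflTransGen.tail h4 ⟨2, by decide +kernel⟩
  have h6 : WS (th, eta) (![0, 1, 1, 2, 1, 0], ![1, 1, 1, 2, 1, 0]) := Relation.ReflTransGen.tail h5 ⟨0, by decide +kernel⟩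
  have h7 : WS (th, eta) (![0, 1, 1, 1, 1, 0], ![1, 1, 1, 1, 1, 0]) := Relation.ReflTransGen.tail h6 ⟨3, by decide +kernel⟩
  have h8 : WS (th, eta) (![0, 0, 1, 1, 1, 0], ![1, 0, 1, 1, 1, 0]) := Relation.ReflTransGen.tail h7 ⟨1, by decide +kernel⟩
  have h9 : WS (th, eta) (![0, 0, 0, 1, 0, 0], ![1, 0, 1, 1, 0, 0]) := Relation.ReflTransGen.tail h8 ⟨2, by decide +kernel⟩
  have h10 : WS (th, eta) (![0, 0, 0, -1, 0, 0], ![1, 0, 1, 0, 0, 0]) := Relation.ReflTransGen.tail h9 ⟨3, by decide +kernel⟩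
  have h11 : WS (th, eta) (![0, -1, 0, -1, 0, 0], ![1, 0, 1, 0, 0, 0]) := Relation.ReflTransGen.tail h10 ⟨1, by decide +kernel⟩
  have h12 : WS (th, eta) (![0, -1, -1, -1, -1, 0], ![1, 0, 0, 0, 0, 0]) := Relation.ReflTransGen.tail h11 ⟨2, by decide +kernel⟩
  have h13 : WS (th, eta) (![-1, -1, -1, -1, -1, -1], ![-1, 0, 0, 0, 0, 0]) := Relation.ReflTransGen.tail h12 ⟨0, by decide +kernel⟩
  have h14 : WS (th, eta) (![-1, -1, -1, -2, -1, -1], ![-1, 0, 0, 0, 0, 0]) := Relation.ReflTransGen.tail h13 ⟨3, by decide +kernel⟩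
  exact h14

theorem NMW_w3 : WS (th, eta) (![0, 0, -1, -1, -1, 0], ![0, 1, 0, 1, 1, 1]) := by
  have h0 : WS (th, eta) (th, eta) := Relation.ReflTransGen.refl
  have h1 : WS (th, eta) (![1, 1, 2, 3, 2, 1], ![1, 1, 2, 2, 1, 1]) := Relation.ReflTransGen.tail h0 ⟨1, by decide +kernel⟩
  have h2 : WS (th, eta) (![1, 1, 2, 2, 2, 1], ![1, 1, 2, 2, 1, 1]) := Relation.ReflTransGen.tail h1 ⟨3, by decide +kernel⟩
  have h3 : WS (th, eta) (![1, 1, 1, 2, 1, 1], ![1, 1, 1, 2, 2, 1]) := Relation.ReflTransGen.tail h2 ⟨2, by decide +kernel⟩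
  have h4 : WS (th, eta) (![0, 1, 1, 2, 1, 0], ![0, 1, 1, 2, 2, 1]) := Relation.ReflTransGen.tail h3 ⟨0, by decide +kernel⟩
  have h5 : WS (th, eta) (![0, 1, 1, 1, 1, 0], ![0, 1, 1, 2, 2, 1]) := Relation.ReflTransGen.tail h4 ⟨3, by decide +kernel⟩
  have h6 : WS (th, eta) (![0, 0, 1, 1, 1, 0], ![0, 1, 1, 2, 2, 1]) := Relation.ReflTransGen.tail h5 ⟨1, by decide +kernel⟩
  have h7 : WS (th, eta) (![0, 0, 0, 1, 0, 0], ![0, 1, 1, 2, 1, 1]) := Relation.ReflTransGen.tail h6 ⟨2, by decide +kernel⟩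
  have h8 : WS (th, eta) (![0, 0, 0, -1, 0, 0], ![0, 1, 1, 1, 1, 1]) := Relation.ReflTransGen.tail h7 ⟨3, by decide +kernel⟩
  have h9 : WS (th, eta) (![0, 0, -1, -1, -1, 0], ![0, 1, 0, 1, 1, 1]) := Relation.ReflTransGen.tail h8 ⟨2, by decide +kernel⟩
  exact h9

theorem NMW_w4 : WS (th, eta) (![0, -1, 0, 0, 0, 0], ![0, -1, -1, -1, 0, 0]) := by
  have h0 : WS (th, eta) (th, eta) := Relation.ReflTransGen.refl
  have h1 : WS (th, eta) (![1, 2, 2, 3, 2, 1], ![1, 1, 2, 2, 1, 0]) := Relation.ReflTransGen.tail h0 ⟨0, by decide +kernel⟩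
  have h2 : WS (th, eta) (![1, 1, 2, 3, 2, 1], ![1, 1, 2, 2, 1, 0]) := Relation.ReflTransGen.tail h1 ⟨1, by decide +kernel⟩
  have h3 : WS (th, eta) (![1, 1, 2, 3, 2, 1], ![1, 1, 1, 2, 1, 0]) := Relation.ReflTransGen.tail h2 ⟨2, by decide +kernel⟩
  have h4 : WS (th, eta) (![1, 1, 2, 2, 2, 1], ![1, 1, 1, 1, 1, 0]) := Relation.ReflTransGen.tail h3 ⟨3, by decide +kernel⟩
  have h5 : WS (th, eta) (![1, 1, 2, 2, 2, 1], ![1, 0, 1, 1, 1, 0]) := Relation.ReflTransGen.tail h4 ⟨1, by decide +kernel⟩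
  have h6 : WS (th, eta) (![1, 1, 1, 2, 1, 1], ![1, 0, 1, 1, 0, 0]) := Relation.ReflTransGen.tail h5 ⟨2, by decide +kernel⟩
  have h7 : WS (th, eta) (![0, 1, 1, 2, 1, 0], ![0, 0, 1, 1, 0, 0]) := Relation.ReflTransGen.tail h6 ⟨0, by decide +kernel⟩
  have h8 : WS (th, eta) (![0, 1, 1, 1, 1, 0], ![0, 0, 1, 0, 0, 0]) := Relation.ReflTransGen.tail h7 ⟨3, by decide +kernel⟩
  have h9 : WS (th, eta) (![0, 1, 0, 1, 0, 0], ![0, 0, -1, 0, 0, 0]) := Relation.ReflTransGen.tail h8 ⟨2, by decide +kernel⟩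
  have h10 : WS (th, eta) (![0, 1, 0, 0, 0, 0], ![0, 0, -1, -1, 0, 0]) := Relation.ReflTransGen.tail h9 ⟨3, by decide +kernel⟩
  have h11 : WS (th, eta) (![0, -1, 0, 0, 0, 0], ![0, -1, -1, -1, 0, 0]) := Relation.ReflTransGen.tail h10 ⟨1, by decide +kernel⟩
  exact h11

theorem NMW : NMW_stmt := by
  intro l hl
  unfold PLm at hl
  simp only [List.mem_cons, List.not_mem_nil, or_false] at hl
  rcases hl with rfl | rfl | rfl | rfl | rfl
  · exact ⟨_, _, _, _, rfl, by unfold LR; decide +kernel, by unfold SR; decide +kernel, NMW_w0⟩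
  · exact ⟨_, _, _, _, rfl, by unfold LR; decide +kernel, by unfold SR; decide +kernel, NMW_w1⟩
  · exact ⟨_, _, _, _, rfl, by unfold LR; decide +kernel, by unfold SR; decide +kernel, NMW_w2⟩
  · exact ⟨_, _, _, _, rfl, by unfold LR; decide +kernel, by unfold SR; decide +kernel, NMW_w3⟩
  · exact ⟨_, _, _, _, rfl, by unfold LR; decide +kernel, by unfold SR; decide +kernel, NMW_w4⟩

end Pool.Agent.EXT
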