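import Pool.Agent.helper17.EXT.AllT
import Pool.Agent.helper16.GFG.Main
import Pool.Agent.helper4.EXT.NMA
import Pool.Agent.helper16.EXT.NMB
import Pool.Agent.helper63.EXT.NMD
import Pool.Agent.helper60.EXT.NMG
import Pool.Agent.helper16.EXT.NMY
import Pool.Agent.helper9.EXT.NMF
import Pool.Agent.helper60.EXT.NMZ
import Pool.Agent.helper53.EXT.NMR
import Pool.Agent.helper53.EXT.NMC
import Pool.Agent.helper53.EXT.NMW

/-!
# Project EXT (MP_561ff4_al), block M, assembled: ten conjugates of EVERY automorphism `x ≠ 1` generate `F₄(2^f)`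
-/

set_option autoImplicit false

open Finset

namespace Pool.Agent.EXT

open Pool.Agent.EXC

theorem f_NMR : NMR_stmt := NMR
theorem f_NMC : NMC_stmt := NMC
theorem f_NMW : NMW_stmt := NMW
theorem f_NMA : NMA_stmt := NMA f_RTF f_SGR f_JCM
theorem f_NMB : NMB_stmt := NMB f_RTF f_NMR f_NMA
theorem f_NMD : NMD_stmt := NMD f_RTF f_NMR f_NMA f_NMB
theorem f_NMG : NMG_stmt := NMG f_RTF f_NMR f_NMA f_NMB
theorem f_NMY : NMY_stmt := NMY f_RTF f_WPS f_SGR f_GFX f_TOR f_ESF f_NMR f_NMA f_SIG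
theorem f_NMF : NMF_stmt := NMF f_SGR f_GFX f_NMA f_NMC f_NMW f_NMD f_NMG f_NMY
theorem f_NMZ : NMZ_stmt := NMZ f_SGR f_GFX f_ESF f_FXF f_JSH f_JSY f_JXT f_JGR f_NMF

/-- the conjugates of a power -/
theorem AllM_pow {G : Type} [Group G] (x : MulAut G) (m n : ℕ) (h : Fin n → G)
    (hh : (MulAut.conj : G →* MulAut G).range ≤ Subgroup.closure (Set.range fun i => MulAut.conj (h i) * x ^ m * (MulAut.conj (h i))⁻¹)) :
    (MulAut.conj : G →* MulAut G).range ≤ Subgroup.closure (Set.range fun i => MulAut.conj (h i) * x * (MulAut.conj (h i))⁻¹) := by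
  refine hh.trans ((Subgroup.closure_le _).2 ?_)
  rintro y ⟨i, hi⟩
  have e : MulAut.conj (h i) * x ^ m * (MulAut.conj (h i))⁻¹ = (MulAut.conj (h i) * x * (MulAut.conj (h i))⁻¹) ^ m := (conj_pow).symm
  have hi' : MulAut.conj (h i) * x ^ m * (MulAut.conj (h i))⁻¹ = y := hi
  rw [← hi', e]
  have hmem : MulAut.conj (h i) * x * (MulAut.conj (h i))⁻¹ ∈
      Subgroup.closure (Set.range fun i => MulAut.conj (h i) * x * (MulAut.conj (h i))⁻¹) := Subgroup.subset_closure (Set.mem_range_self i)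
  exact Subgroup.pow_mem _ hmem m

/-- `K` finite of characteristic 2, `GF = F₄(K)`: for EVERY automorphism `x ≠ 1` ten conjugates of `x` generate a group which contains all inner
automorphisms, and `10 ∈ CSet r x` for every prime `r` which divides the order. -/
theorem Gen10J (K : Type) [Field K] [Finite K] (h2 : (2 : K) = 0) (x : MulAut (GF (RingEquiv.refl K))) (hx1 : x ≠ 1) :
    (∃ h : Fin 10 → GF (RingEquiv.refl K), (MulAut.conj : GF (RingEquiv.refl K) →* MulAut (GF (RingEquiv.refl K))).range ≤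
      Subgroup.closure (Set.range fun i => MulAut.conj (h i) * x * (MulAut.conj (h i))⁻¹)) ∧
    ∀ r : ℕ, r.Prime → r ∣ Nat.card (GF (RingEquiv.refl K)) → 10 ∈ Pool.Agent.GS.CSet r x := by
  have hτ : ∀ u : K, RingEquiv.refl K (RingEquiv.refl K u) = u := fun _ => rfl
  rcases f_JAU K h2 x with h | h
  · exact Gen10T K (RingEquiv.refl K) hτ x h hx1
  have hfin0 : Finite (LT (RingEquiv.refl K)) := Subtype.finite
  have hfin1 : Finite (GF (RingEquiv.refl K)) := inferInstance
  have hfin : Finite (MulAut (GF (RingEquiv.refl K))) :=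
    Finite.of_injective (fun y : MulAut (GF (RingEquiv.refl K)) => (y : GF (RingEquiv.refl K) → GF (RingEquiv.refl K)))
      DFunLike.coe_injective
  obtain ⟨h3, h4, h5⟩ := f_JSW K h2 x h
  have heven : ∀ j : ℕ, RAF (RingEquiv.refl K) (x ^ (2 * j)) := by
    intro j
    rw [pow_mul, pow_two]
    exact JFG_pow _ h4 j
  have hodd : ∀ j : ℕ, SwF (x ^ (2 * j + 1)) := by
    intro j
    rw [pow_succ']
    exact h5 _ (heven j)
  have hn0 : 0 < orderOf x := orderOf_pos x
  have hxn : x ^ orderOf x = 1 := pow_orderOf_eq_one x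
  rcases Nat.even_or_odd' (orderOf x) with ⟨m, hm | hm⟩
  · have hyy : x ^ m * x ^ m = 1 := by
      rw [← pow_add, ← two_mul, ← hm, hxn]
    have key : (∃ h : Fin 10 → GF (RingEquiv.refl K), (MulAut.conj : GF (RingEquiv.refl K) →* MulAut (GF (RingEquiv.refl K))).range ≤
        Subgroup.closure (Set.range fun i => MulAut.conj (h i) * x ^ m * (MulAut.conj (h i))⁻¹)) ∧
        ∀ r : ℕ, r.Prime → r ∣ Nat.card (GF (RingEquiv.refl K)) → 10 ∈ Pool.Agent.GS.CSet r (x ^ m) := by
      rcases Nat.even_or_odd' m with ⟨j, hj | hj⟩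
      · have hy1 : x ^ m ≠ 1 := pow_ne_one_of_lt_orderOf (by omega) (by omega)
        have hy2 : RAF (RingEquiv.refl K) (x ^ m) := by rw [hj]; exact heven j
        exact Gen10T K (RingEquiv.refl K) hτ (x ^ m) hy2 hy1
      · have hy2 : SwF (x ^ m) := by rw [hj]; exact hodd j
        exact f_NMZ K h2 (x ^ m) hyy hy2
    obtain ⟨⟨g, hg⟩, hr⟩ := key
    exact ⟨⟨g, AllM_pow x m 10 g hg⟩, fun r hrp hrd => (f_JGR _ x r 10).1 m (hr r hrp hrd)⟩
  · exfalso
    have h6 : SwF (x ^ orderOf x) := by rw [hm]; exact hodd m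
    rw [hxn] at h6
    exact (f_JSW K h2 1 h6).1 JFG_one

end Pool.Agent.EXT
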