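import Pool.Agent.helper17.EXT.SpecJ
import Pool.Agent.helper43.EXG.GXC
import Pool.Agent.helper14.EXG.GGA

/-!
# Project EXT (MP_561ff4_al), BLOCK M: ten conjugates of a graph involution generate `F₄(2^f)`

RULES. Row `XXX`: file `Pool/Agent/<seat>/EXT/XXX.lean`, `import Pool.Agent.helper53.EXT.SpecM`, `set_option autoImplicit false`,
`open Finset`, `namespace Pool.Agent.EXT`, `open Pool.Agent.EXC`, theorem line exactly as in the lock note (other rows only as hypotheses),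
auxiliary lemmas prefixed `XXX_`. No straight double quotes, no convert / congr!. Land, note DONE + path, one line to helper53.
FREE theorems: all rows of project EXC as `f_XXX`; `Pool.Agent.EXC.GXC : GXC_stmt` (calculus of the elements `XG C α t`), `Pool.Agent.EXC.GGA : GGA_stmt` (groups), `k_XGS`
(`IsX C (E C α) t (XG C α t)`); statements in `Pool/Agent/helper16/EXG/Spec.lean`, `Pool/Agent/helper32/EXC/Spec11.lean`. The `ft:` rows
(`Pool/Agent/helper17/EXT/Spec.lean`) and `ftj:` rows (`Pool/Agent/helper17/EXT/SpecJ.lean`) are hypotheses.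

SETTING. `K` has characteristic 2 (`(2 : K) = 0`), `τ = RingEquiv.refl K`, `GF τ = F₄(K)`; all signs are `1` in `K`. `Rt α t` is the root element of `F₄(K)` for the root `α` of `E₆`: `x_α(t)` if
`α` is long (`pv α = α`), `X_α(t) = x_α(t) x_πα(t)` if `α` is short. `[g, h] = g h g⁻¹ h⁻¹`. PLAN. `x` an involution which exchanges `X_th` and `X_eta`: `Y = x(t) t⁻¹` is conjugate to all
mixed elements `Rt u a * Rt v c`, `u` long, `v` short, `(u, v) = 1` (NMY). Five of them generate `F₄(K)`: commutators of two products with only one pair of factors which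
do not commute (`Dm`, NMD), a certificate found by computer (NMC, helper53), the field from the parameter of the last product (NMG).
-/

set_option autoImplicit false

open Finset

namespace Pool.Agent.EXT

open Pool.Agent.EXC

/-- the root element of `F₄(K)` (characteristic 2) -/
noncomputable def Rt {K : Type} [Field K] (α : Fin 6 → ℤ) (t : K) : Lm C6 K ≃ₗ[K] Lm C6 K :=
  if pv α = α then XG C6 α t else XG C6 α t * XG C6 (pv α) t

/-- the root elements for `α` and `β` commute (characteristic 2) -/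
abbrev cm (α β : Fin 6 → ℤ) : Prop := 0 ≤ ip C6 α β + ip C6 α (pv β)

/-- the product of the root elements with the parameters `1` (entries `(α, true)`) and `t` (entries `(α, false)`) -/
noncomputable def prR {K : Type} [Field K] (t : K) (l : List ((Fin 6 → ℤ) × Bool)) : Lm C6 K ≃ₗ[K] Lm C6 K :=
  (l.map fun p => Rt p.1 (if p.2 then (1 : K) else t)).prod

/-- products of (one or two, commuting) root elements which are in every group which contains the products of the list `PL` -/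
inductive Dm (PL : List (List ((Fin 6 → ℤ) × Bool))) : List ((Fin 6 → ℤ) × Bool) → Prop
  | ax (l : List ((Fin 6 → ℤ) × Bool)) : l ∈ PL → Dm PL l
  | swp (p q : (Fin 6 → ℤ) × Bool) : Dm PL [p, q] → cm p.1 q.1 → Dm PL [q, p]
  | flp (u u' : Fin 6 → ℤ) (b : Bool) (P : List ((Fin 6 → ℤ) × Bool)) : Dm PL ((u, b) :: P) → u' = pv u → Dm PL ((u', b) :: P)
  | spl (p : (Fin 6 → ℤ) × Bool) (v : Fin 6 → ℤ) : Dm PL [p, (v, true)] → Dm PL [(v, true)] → Dm PL [p]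
  | co1 (u v w : Fin 6 → ℤ) (P Q : List ((Fin 6 → ℤ) × Bool)) : Dm PL ((u, true) :: P) → Dm PL ((v, true) :: Q) →
      (((pv u = u ∧ pv v = v) ∨ (pv u ≠ u ∧ pv v ≠ v ∧ ip C6 u (pv v) = 0)) ∧ ip C6 u v = -1 ∧ w = u + v ∧
        (∀ p ∈ P, cm p.1 v ∧ ∀ q ∈ Q, cm p.1 q.1) ∧ ∀ q ∈ Q, cm u q.1) → Dm PL [(w, true)]
  | co2 (u v w w' : Fin 6 → ℤ) (P Q : List ((Fin 6 → ℤ) × Bool)) : Dm PL ((u, true) :: P) → Dm PL ((v, true) :: Q) →
      ((pv u = u ∧ pv v ≠ v) ∧ ip C6 u v = -1 ∧ w = u + v ∧ w' = w + pv v ∧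
        (∀ p ∈ P, cm p.1 v ∧ ∀ q ∈ Q, cm p.1 q.1) ∧ ∀ q ∈ Q, cm u q.1) → Dm PL [(w, true), (w', true)]

/-- the five mixed products (found by computer) -/
def PLm : List (List ((Fin 6 → ℤ) × Bool)) := [
  [(![1, 2, 2, 3, 2, 1], true), (![0, 1, 1, 2, 2, 1], true)],
  [(![-1, -1, -1, -1, -1, -1], true), (![0, 0, 0, 1, 1, 0], true)],
  [(![-1, -1, -1, -2, -1, -1], true), (![-1, 0, 0, 0, 0, 0], true)],
  [(![0, 0, -1, -1, -1, 0], true), (![0, 1, 0, 1, 1, 1], true)],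
  [(![0, -1, 0, 0, 0, 0], false), (![0, -1, -1, -1, 0, 0], true)]]

/-- **NMR** (short; finite check; helper53). -/
def NMR_stmt : Prop := (∀ w, LR w → ∃ w1 w2, LR w1 ∧ LR w2 ∧ ip C6 (-sr 1) w1 = 1 ∧ ip C6 w1 w2 = 1 ∧ ip C6 w2 w = 1) ∧
  (∀ γ, LR γ → ∃ α β, LR α ∧ LR β ∧ ip C6 α β = -1 ∧ γ = α + β) ∧
  (∀ γ, SR γ → ∃ α β, LR α ∧ SR β ∧ ip C6 α β = -1 ∧ γ = α + β) ∧
  (∀ α β, SR α → SR β → ip C6 α β = -1 → ip C6 α (pv β) = 0 → SR (α + β)) ∧
  (∀ α β, LR α → SR β → ip C6 α β = -1 → SR (α + β) ∧ LR (α + β + pv β)) ∧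
  LR ![1, 0, 1, 1, 1, 1] ∧ ip C6 th ![1, 0, 1, 1, 1, 1] = 0 ∧ ip C6 eta ![1, 0, 1, 1, 1, 1] = 1 ∧ ip C6 th (sr 1) = 1 ∧ ip C6 eta (sr 1) = 0

/-- **NMC** (certificate, by computer; helper53). -/
def NMC_stmt : Prop := (∀ l ∈ PLm, ∀ p ∈ l, ip C6 p.1 p.1 = 2) ∧ (∀ α, ip C6 α α = 2 → Dm PLm [(α, true)]) ∧ Dm PLm [(-sr 1, false)]

/-- **NMW** (short; words, by computer; helper53). -/
def NMW_stmt : Prop := ∀ l ∈ PLm, ∃ (u v : Fin 6 → ℤ) (b b' : Bool), l = [(u, b), (v, b')] ∧ LR u ∧ SR v ∧ WS (th, eta) (u, v)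

/-- **NMA** (medium). uses: RTF, SGR, JCM. Calculus of the `Rt α t`. `GXC` (additivity and commuting for `XG`; the first hypothesis from `f_DE6.2` / `f_NBR`), `k_XGS`, `f_XGS`-like uniqueness (`LinearEquiv.ext`). `α` short: `XG C6 α s` and `XG C6 (pv α) t` commute (`ip α (pv α) = 0`, RTF). `Rt (pv α) t = Rt α t` (`pv (pv α) = α`; commute).
`SR α`: `IsS (refl) α t (Rt α t)`: `(sn α : K) = 1` (`sn α = ± 1`, `-1 = 1` in `K`; RTF). In `GS`: closure generators. Commuting: `f_COL`-type part of GXC for long `α, β`; JCM for the other cases (`cm α β` for `α` or `β` long means `0 ≤ ip α β`, RTF `ip (pv α) (pv β) = ip α β`; `ip (pv α) β = ip α β` for `β` long). The elements `g` with `IsX` or `IsS` are the `Rt`. -/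
def NMA_stmt : Prop := ∀ (K : Type) [Field K], (2 : K) = 0 →
  (∀ α, ip C6 α α = 2 → (∀ s t : K, Rt α (s + t) = Rt α s * Rt α t) ∧ Rt α (0 : K) = 1 ∧ (∀ t : K, Rt (pv α) t = Rt α t) ∧
    (∀ t : K, Rt α t ∈ GS (RingEquiv.refl K))) ∧
  (∀ α, LR α → ∀ (t : K) (g : Lm C6 K ≃ₗ[K] Lm C6 K), IsX C6 (E C6 α) t g ↔ g = Rt α t) ∧
  (∀ α, SR α → ∀ (t : K) (g : Lm C6 K ≃ₗ[K] Lm C6 K), IsS (RingEquiv.refl K) α t g ↔ g = Rt α t) ∧
  ∀ α β, ip C6 α α = 2 → ip C6 β β = 2 → cm α β → ∀ s t : K, Rt α s * Rt β t = Rt β t * Rt α s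

/-- **NMB** (medium). uses: RTF, NMR, NMA. Commutators. Write everything with `XG`, signs are `1` (`(sg C6 α β : K) = 1`: `± 1`, `-1 = 1`). GXC: `XG α s * XG β t * (XG α s)⁻¹ = XG β t * XG (α+β) (s t)` if `ip α β = -1`. (1) `α, β` long: this. (2) `α, β` short, `ip α β = -1`, `ip α (pv β) = 0`: `XG α s` with `XG β t`, `XG (pv α) s` with `XG (pv β) t`
(`ip (pv α) (pv β) = -1`), the cross pairs commute (`ip (pv α) β = ip α (pv β) = 0`), `XG (α+β)` commutes with `XG (pv β)` and `XG (pv α)` (`ip = 0`); `α + β` is short (NMR), `pv (α+β) = pv α + pv β`. (3) `α` long, `β` short: `XG α s (XG β t XG (pv β) t) (XG α s)⁻¹ = XG β t XG (α+β) (st) XG (pv β) t XG (α + pv β) (st)`, and `XG (α+β) (st) XG (pv β) t = XG (pv β) t XG (α+β) (st) XG (α+β+pv β) (s t²)`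
(`ip (α+β) (pv β) = -1`); `XG (α+β+pv β)` commutes with `XG (α + pv β)` (`ip = 1`) and with `Rt β` (`ip = 1`, NMA); `Rt β t` commutes with `Rt (α+β) (st)` (NMA: `cm`). So the commutator is `Rt (α+β) (st) * Rt (α+β+pv β) (s t²)`. -/
def NMB_stmt : Prop := ∀ (K : Type) [Field K], (2 : K) = 0 →
  (∀ α β, LR α → LR β → ip C6 α β = -1 → ∀ s t : K, Rt α s * Rt β t * (Rt α s)⁻¹ * (Rt β t)⁻¹ = Rt (α + β) (s * t)) ∧
  (∀ α β, SR α → SR β → ip C6 α β = -1 → ip C6 α (pv β) = 0 → ∀ s t : K, Rt α s * Rt β t * (Rt α s)⁻¹ * (Rt β t)⁻¹ = Rt (α + β) (s * t)) ∧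
  ∀ α β, LR α → SR β → ip C6 α β = -1 → ∀ s t : K, Rt α s * Rt β t * (Rt α s)⁻¹ * (Rt β t)⁻¹ = Rt (α + β) (s * t) * Rt (α + β + pv β) (s * t ^ 2)

/-- **NMD** (medium). uses: RTF, NMR, NMA, NMB. Soundness. Induction on `Dm`, with the invariant that all entries are roots (`co1`, `co2`: NMR, and `ip (u+v) (u+v) = 2` from `ip u v = -1`). Group identity: if `p'` commutes with `y` and `q'`, and `x` commutes with `q'`, then `[x p', y q'] = [x, y]` (`x p' (y q') p'⁻¹ x⁻¹ = x y q' x⁻¹ = x y x⁻¹ q'`).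
Here `x = Rt u 1`, `y = Rt v 1`, `p' = prR t P`, `q' = prR t Q` (products of elements which commute by NMA, induction on the lists). `[x, y]` by NMB (`s = t = 1`; `prR t ((u, true) :: P) = Rt u 1 * prR t P`). `flp`: `Rt (pv u) = Rt u` (NMA). `spl`: `prR [p] = prR [p, (v, true)] * (prR [(v, true)])⁻¹`. -/
def NMD_stmt : Prop := ∀ (K : Type) [Field K], (2 : K) = 0 → ∀ (PL : List (List ((Fin 6 → ℤ) × Bool))) (t : K) (H : Subgroup (Lm C6 K ≃ₗ[K] Lm C6 K)),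
  (∀ l ∈ PL, ∀ p ∈ l, ip C6 p.1 p.1 = 2) → (∀ l ∈ PL, prR t l ∈ H) → ∀ l, Dm PL l → (∀ p ∈ l, ip C6 p.1 p.1 = 2) ∧ prR t l ∈ H

/-- **NMG** (medium). uses: RTF, NMR, NMA, NMB. Generation. (1) If `Rt α s ∈ H` (`α` long) and `γ` is long, `ip α γ = 1`, then `Rt γ s ∈ H`: `γ = α + β`, `β = γ - α` long, `ip α β = -1`, `[Rt α s, Rt β 1] = Rt γ s` (NMB). So with NMR (1): `Rt (-sr 1) s ∈ H` implies `Rt γ s ∈ H` for all long `γ`. Let `A` be the set of the `s : K` with `Rt γ s ∈ H` for all long `γ`.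
`1, t ∈ A`; closed under products (NMR (2), NMB), so all powers of `t` are in `A`, `0 ∈ A` (`Rt γ 0 = 1`): `A = K`. (2) `γ` short: NMR (3) `γ = α + β`: `[Rt α s, Rt β 1] = Rt γ s * Rt (γ + pv β) s`, `γ + pv β` is long (NMR), so `Rt γ s ∈ H`. (3) The generators of `GS` are the `Rt α s` (NMA). -/
def NMG_stmt : Prop := ∀ (K : Type) [Field K], (2 : K) = 0 → ∀ H : Subgroup (Lm C6 K ≃ₗ[K] Lm C6 K), (∀ α, ip C6 α α = 2 → Rt α (1 : K) ∈ H) →
  ∀ t : K, (∀ s : K, s ≠ 0 → ∃ k : ℕ, s = t ^ k) → Rt (-sr 1) t ∈ H → GS (RingEquiv.refl K) ≤ H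

/-- **NMY** (medium). uses: RTF, WPS, SGR, GFX, TOR, ESF, JSH, NMR, NMA. The conjugates of `Y` (as `JYC`, `Pool/Agent/*/EXT/JYC.lean`, `B0Y`, `Pool/Agent/helper15/EXT/B0Y.lean`). `t ∈ GF` with `IsF (E th) 1 t`; `x t ∈ X_eta` with the parameter `b ≠ 0` (`x t ≠ 1`); `t⁻¹ = t`. TOR with `α = sr 1` and the parameter `a`: `h₁ E th = a E th`, `h₁ E eta = E eta`, the same for `pv eta`; TOR with `α = ![1,0,1,1,1,1]` and
the parameter `c / b`: `h₂ E th = E th`, `h₂ E eta = (c/b) E eta`, the same for `pv eta` (NMR last part, `ip (pv eta) α = ip eta α`). WPS: `k ∈ GS`, `k E th = E u`, `k E eta = E v` (signs are `1`), `k E (pv eta) = E (pv v)` (`k` commutes with `si`; SGR, SIG-like: `si (E γ) = (sn γ) E (pv γ)`). `f₀` induced by `k h₂ h₁`: `f₀ (x t t⁻¹) f₀⁻¹` is induced by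
`g X_eta(b) x_th(1) g⁻¹ = Rt v c * Rt u a`, `g = k h₂ h₁` (conjugation of `xe`: `g (xe e t w) = xe (g e) t (g w)`, `xe (c • e) t = xe e (c t)`: `f_XAU`, `f_EXF`), and `Rt v c`, `Rt u a` commute (NMA; `ip u v = 1`; `WS` preserves the products: `ip th eta = 1`). -/
def NMY_stmt : Prop := ∀ (K : Type) [Field K], (2 : K) = 0 → ∀ x : MulAut (GF (RingEquiv.refl K)),
  (∀ f : GF (RingEquiv.refl K), InX (RingEquiv.refl K) (E C6 th) (f : Equiv.Perm (LT (RingEquiv.refl K))) →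
    InH 1 eta ((x f : GF (RingEquiv.refl K)) : Equiv.Perm (LT (RingEquiv.refl K)))) →
  ∃ t : GF (RingEquiv.refl K), ∀ u v, LR u → SR v → WS (th, eta) (u, v) → ∀ a c : K, a ≠ 0 → c ≠ 0 → ∃ f₀ : GF (RingEquiv.refl K),
    ∀ w : LT (RingEquiv.refl K), (((f₀ * (x t * t⁻¹) * f₀⁻¹ : GF (RingEquiv.refl K)) : Equiv.Perm (LT (RingEquiv.refl K))) w : Lm C6 K) =
      (Rt u a * Rt v c : Lm C6 K ≃ₗ[K] Lm C6 K) w

/-- **NMF** (medium). uses: SGR, GFX, NMA, NMC, NMW, NMD, NMG, NMY. Five conjugates of `Y` generate. `ζ : K` such that every `s ≠ 0` is a power of `ζ` (`Kˣ` is cyclic), `ζ ≠ 0`. NMY gives `t`; NMW: the `i`-th list of `PLm` is `[(u, b), (v, b')]`; NMY with `a = if b then 1 else ζ`, `c = if b' then 1 else ζ`: `g i`, such that `g i Y (g i)⁻¹` is induced by `prR ζ (PLm_i)` (`= Rt u a * Rt v c`).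
`C` = the closure; `H` = the set of the `h ∈ GS` which induce an element of `C` (a subgroup). All `prR ζ l ∈ H`, `l ∈ PLm`; NMD, NMC: `Rt α 1 ∈ H` for all roots, `Rt (-sr 1) ζ ∈ H`; NMG: `GS ≤ H`. Every `f ∈ GF` is induced by some `h ∈ GS ≤ H`, so `f ∈ C`. -/
def NMF_stmt : Prop := ∀ (K : Type) [Field K] [Finite K], (2 : K) = 0 → ∀ x : MulAut (GF (RingEquiv.refl K)),
  (∀ f : GF (RingEquiv.refl K), InX (RingEquiv.refl K) (E C6 th) (f : Equiv.Perm (LT (RingEquiv.refl K))) →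
    InH 1 eta ((x f : GF (RingEquiv.refl K)) : Equiv.Perm (LT (RingEquiv.refl K)))) →
  ∃ (t : GF (RingEquiv.refl K)) (g : Fin 5 → GF (RingEquiv.refl K)), Subgroup.closure (Set.range fun i => g i * (x t * t⁻¹) * (g i)⁻¹) = ⊤

/-- **NMZ** (short-medium). uses: SGR, GFX, ESF, FXF, JSH, JSY, JXT, JGR, NMF. The theorem. JSY: `c`, `P`; `x' = conj c * x * (conj c)⁻¹`: `x' * x' = 1`, `SwF x'` (transport as in the proof of `JSI`, `Pool/Agent/*/EXT/JSI.lean`); JXT, NMF for `x'`; `GGA` (groups; centre trivial: FXF) for `x'`: `h : Fin 10 → GF`; for `x` take `h i * c`: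
`conj (h i) x' (conj (h i))⁻¹ = conj (h i c) x (conj (h i c))⁻¹`. `10 ∈ CSet r x`: JGR (2), or `GGA` / directly. -/
def NMZ_stmt : Prop := ∀ (K : Type) [Field K] [Finite K], (2 : K) = 0 → ∀ x : MulAut (GF (RingEquiv.refl K)), x * x = 1 → SwF x →
  (∃ h : Fin 10 → GF (RingEquiv.refl K), (MulAut.conj : GF (RingEquiv.refl K) →* MulAut (GF (RingEquiv.refl K))).range ≤
    Subgroup.closure (Set.range fun i => MulAut.conj (h i) * x * (MulAut.conj (h i))⁻¹)) ∧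
  ∀ r : ℕ, r.Prime → r ∣ Nat.card (GF (RingEquiv.refl K)) → 10 ∈ Pool.Agent.GS.CSet r x

end Pool.Agent.EXT
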