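import Pool.Agent.helper68.EXT.G5R
import Pool.Agent.helper80.EXT.G5A
import Pool.Agent.helper80.EXT.G5S
import Pool.Agent.helper80.EXT.G5L
import Pool.Agent.helper76.EXT.G5N
import Pool.Agent.helper76.EXT.G5P
import Pool.Agent.helper81.EXT.G5X
import Pool.Agent.helper99.EXT.G5Y
import Pool.Agent.helper93.EXT.G5Z
import Pool.Agent.helper72.EXT.G5C
import Pool.Agent.helper21.EXT.G5F
import Pool.Agent.helper79.EXT.B0R
import Pool.Agent.helper10.EXT.B0A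
import Pool.Agent.helper63.EXT.B0N
import Pool.Agent.helper15.EXT.B0Y
import Pool.Agent.helper53.EXT.B0P
import Pool.Agent.helper16.EXT.B57
import Pool.Agent.helper28.EXT.B03

/-!
# Project EXT (MP_561ff4_al): blocks G (`r = 5`) and B, assembled
-/

set_option autoImplicit false

namespace Pool.Agent.EXT

/-- `r = 5` for `F₄(q)`, `²E₆(q)` -/
theorem T5 (hGEF : GEF_stmt) (hPAR : PAR_stmt) (hGFX : GFX_stmt) (hSGR : SGR_stmt) (hSIG : SIG_stmt) (hGRQ : GRQ_stmt) (hFXF : FXF_stmt) :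
    G5F_stmt :=
  G5F (G5C hGEF hPAR hGFX hSGR G5R (G5A G5R)) (G5A G5R) (G5L G5R (G5A G5R) G5S hSGR) (G5N G5R hSGR hSIG) G5P G5X G5Y G5Z hGFX hGRQ hFXF

/-- `r = 5`, `7` for the standard graph automorphisms of `F₄(2^f)` -/
theorem TB57 (hSIG : SIG_stmt) (hSGR : SGR_stmt) (hGFX : GFX_stmt) (hTOR : TOR_stmt) (hESF : ESF_stmt) (hGRQ : GRQ_stmt) (hFXF : FXF_stmt) :
    B57_stmt :=
  B57 (B0A B0R) (B0N B0R hSIG) (B0Y B0R (B0A B0R) hSGR hGFX hTOR hESF) B0P hSGR hGFX hGRQ hFXF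

/-- `r = 3` for the standard graph automorphisms of `F₄(2^f)` -/
theorem TB3 (hSGR : SGR_stmt) (hGFX : GFX_stmt) (hESF : ESF_stmt) (hGRQ : GRQ_stmt) (hFXF : FXF_stmt) : B03_stmt :=
  B03 B0R hSGR hGFX hGRQ hFXF hESF

end Pool.Agent.EXT
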